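import Mathlib
import Pool.Agent.H914R2.TBase
import Pool.Agent.H914R2.PolyPow

/-!
# Algebra: powers of roots, simple parts, isolated roots
-/

open Polynomial TensorProduct

namespace Pool.Agent.K4H38.ZO

open Pool.Agent.H914

/-- If the `m`-th powers of the roots of the squarefree polynomial `P` are different, then the
variable is a polynomial in its `m`-th power modulo `P`. -/
theorem exists_pow_inverse {P : ℚ[X]} (hP : Squarefree P) {m : ℕ}
    (hm : ∀ α β : ℂ, aeval α P = 0 → aeval β P = 0 → α ^ m = β ^ m → α = β) :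
    ∃ h : ℚ[X], P ∣ h.comp (X ^ m) - X := by
  classical
  have hP0 : P ≠ 0 := hP.ne_zero
  set d := P.natDegree with hd
  set A := AdjoinRoot P with hA
  have hfin : Module.Finite ℚ A := (AdjoinRoot.powerBasis hP0).finite
  have hfr : Module.finrank ℚ A = d := by
    rw [(AdjoinRoot.powerBasis hP0).finrank, AdjoinRoot.powerBasis_dim]
  -- the map `p ↦ p(x^m)`
  set φ : ℚ[X] →ₐ[ℚ] A := aeval ((AdjoinRoot.root P) ^ m) with hφ
  have hφe : ∀ p : ℚ[X], φ p = AdjoinRoot.mk P (p.comp (X ^ m)) := by
    intro p
    rw [← AdjoinRoot.aeval_eq (p.comp (X ^ m)), Polynomial.aeval_comp, map_pow, aeval_X]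
  set ψ : degreeLT ℚ d →ₗ[ℚ] A := φ.toLinearMap ∘ₗ (degreeLT ℚ d).subtype with hψ
  have hsep : P.Separable := PerfectField.separable_iff_squarefree.2 hP
  set S : Finset ℂ := (P.map (algebraMap ℚ ℂ)).roots.toFinset with hS
  have hcard : S.card = d := by
    rw [hS, Multiset.toFinset_card_of_nodup (nodup_roots hsep.map),
      splits_iff_card_roots.1 (IsAlgClosed.splits _), natDegree_map]
  have hSr : ∀ z ∈ S, aeval z P = 0 := by
    intro z hz
    rw [hS, Multiset.mem_toFinset, mem_roots', IsRoot, eval_map_algebraMap] at hz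
    exact hz.2
  have hinj : Function.Injective ψ := by
    rw [← LinearMap.ker_eq_bot, LinearMap.ker_eq_bot']
    rintro ⟨p, hp⟩ h0
    have h1 : φ p = 0 := h0
    rw [hφe, AdjoinRoot.mk_eq_zero] at h1
    obtain ⟨c, hc⟩ := h1
    have hpd : p.degree < d := mem_degreeLT.1 hp
    have h2 : p.map (algebraMap ℚ ℂ) = 0 := by
      by_cases hp0 : p = 0
      · rw [hp0, Polynomial.map_zero]
      apply eq_zero_of_natDegree_lt_card_of_eval_eq_zero' _ (S.image (fun z => z ^ m))
      · intro y hy
        obtain ⟨z, hz, rfl⟩ := Finset.mem_image.1 hy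
        have h3 := congrArg (aeval z) hc
        rw [Polynomial.aeval_comp, map_pow, aeval_X, map_mul, hSr z hz, zero_mul] at h3
        rw [eval_map_algebraMap]
        exact h3
      · rw [Finset.card_image_of_injOn (fun a ha b hb hab => hm a b (hSr a ha) (hSr b hb) hab),
          hcard, natDegree_map]
        exact (natDegree_lt_iff_degree_lt hp0).2 hpd
    have h3 : p = 0 := by
      rwa [Polynomial.map_eq_zero] at h2
    exact Subtype.ext h3
  have hfr2 : Module.finrank ℚ (degreeLT ℚ d) = Module.finrank ℚ A := by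
    rw [hfr, (degreeLTEquiv ℚ d).finrank_eq, Module.finrank_fintype_fun_eq_card, Fintype.card_fin]
  have hfin' : Module.Finite ℚ (degreeLT ℚ d) := Module.Finite.equiv (degreeLTEquiv ℚ d).symm
  have hsurj := (LinearMap.injective_iff_surjective_of_finrank_eq_finrank hfr2).1 hinj
  obtain ⟨⟨h, hh⟩, hx⟩ := hsurj (AdjoinRoot.root P)
  refine ⟨h, ?_⟩
  have h4 : φ h = AdjoinRoot.root P := hx
  rw [← AdjoinRoot.mk_eq_zero, map_sub, ← hφe, h4, AdjoinRoot.mk_X, sub_self]

/-- A separable factor of the characteristic polynomial divides the polynomials which are zero. -/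
lemma dvd_of_dvd_charpoly {K : Type*} [Field K] [CharZero K] {V : Type*} [AddCommGroup V]
    [Module K V] [Module.Finite K V] {A : Module.End K V} {p : K[X]} (hp : Squarefree p)
    (hd : p ∣ A.charpoly) {Q : K[X]} (hQ : ∀ z : AlgebraicClosure K,
      (p.map (algebraMap K (AlgebraicClosure K))).IsRoot z →
      Module.End.HasEigenvalue (A.baseChange (AlgebraicClosure K) :
        Module.End (AlgebraicClosure K) (AlgebraicClosure K ⊗[K] V)) z →
      (Q.map (algebraMap K (AlgebraicClosure K))).IsRoot z) : p ∣ Q := by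
  classical
  by_cases hQ0 : Q = 0
  · rw [hQ0]; exact dvd_zero _
  set Kb := AlgebraicClosure K with hKb
  have hp0 : p ≠ 0 := hp.ne_zero
  have hsep : p.Separable := by
    rw [PerfectField.separable_iff_squarefree]; exact hp
  have hroots : ∀ z : Kb, (p.map (algebraMap K Kb)).IsRoot z →
      (Q.map (algebraMap K Kb)).IsRoot z := by
    intro z hz
    apply hQ z hz
    rw [Module.End.hasEigenvalue_iff_isRoot_charpoly, LinearMap.charpoly_baseChange]
    obtain ⟨c, hc⟩ := hd
    rw [hc, Polynomial.map_mul, IsRoot, eval_mul, hz, zero_mul]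
  rw [← Polynomial.map_dvd_map' (algebraMap K Kb)]
  have hmap0 : Q.map (algebraMap K Kb) ≠ 0 := by
    rwa [Ne, Polynomial.map_eq_zero]
  have hpm0 : p.map (algebraMap K Kb) ≠ 0 := by
    rwa [Ne, Polynomial.map_eq_zero]
  have hsplit := IsAlgClosed.splits (p.map (algebraMap K Kb))
  have hnd : (p.map (algebraMap K Kb)).roots.Nodup := nodup_roots hsep.map
  have e1 := hsplit.eq_prod_roots
  have hlc : (p.map (algebraMap K Kb)).leadingCoeff ≠ 0 := leadingCoeff_ne_zero.2 hpm0
  rw [e1, (isUnit_C.2 (isUnit_iff_ne_zero.2 hlc)).mul_left_dvd,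
    Multiset.prod_X_sub_C_dvd_iff_le_roots hmap0]
  rw [Multiset.le_iff_subset hnd]
  intro z hz
  rw [mem_roots hmap0]
  exact hroots z (isRoot_of_mem_roots hz)

/-- The roots of a polynomial which vanishes at the operator contain the eigenvalues. -/
lemma isRoot_of_eigenvalue {K : Type*} [Field K] [CharZero K] {V : Type*} [AddCommGroup V]
    [Module K V] [Module.Finite K V] {A : Module.End K V} {Q : K[X]} (hQ : aeval A Q = 0)
    {Kb : Type*} [Field Kb] [Algebra K Kb] {z : Kb}
    (h1 : Module.End.HasEigenvalue (A.baseChange Kb : Module.End Kb (Kb ⊗[K] V)) z) :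
    (Q.map (algebraMap K Kb)).IsRoot z := by
  obtain ⟨v, hv⟩ := h1.exists_hasEigenvector
  have h2 : aeval (A.baseChange Kb : Module.End Kb (Kb ⊗[K] V)) (Q.map (algebraMap K Kb)) = 0 := by
    rw [← bc_aeval, hQ, bc_zero]
  have h5 := Module.End.aeval_apply_of_hasEigenvector (p := Q.map (algebraMap K Kb)) hv
  rw [h2, LinearMap.zero_apply] at h5
  rcases smul_eq_zero.1 h5.symm with h6 | h6
  · exact h6
  · exact absurd h6 hv.2

/-- The part of a space on which a simple factor of the characteristic polynomial vanishes. -/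
theorem simple_part {K : Type*} [Field K] [CharZero K] {V : Type*} [AddCommGroup V]
    [Module K V] [Module.Finite K V] {A : Module.End K V} {p₀ p₁ : K[X]}
    (hχ : A.charpoly = p₀ * p₁) (hco : IsCoprime p₀ p₁) (hsq : Squarefree p₁) :
    Module.finrank K (LinearMap.ker (aeval A p₁)) = p₁.natDegree ∧
      ∀ Q : K[X], (∀ a ∈ LinearMap.ker (aeval A p₁), aeval A Q a = 0) → p₁ ∣ Q := by
  classical
  set U₀ := LinearMap.ker (aeval A p₀) with hU₀
  set U₁ := LinearMap.ker (aeval A p₁) with hU₁
  have hCH : aeval A (p₀ * p₁) = 0 := by rw [← hχ]; exact LinearMap.aeval_self_charpoly A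
  have hdvd : ∀ Q : K[X], (∀ a ∈ U₁, aeval A Q a = 0) → p₁ ∣ Q := by
    intro Q hQ
    have h0 : aeval A (p₀ * Q) = 0 := by
      obtain ⟨a, b, hab⟩ := hco
      apply LinearMap.ext
      intro x
      have h1 : aeval A (a * p₀) x ∈ U₁ := by
        rw [hU₁, LinearMap.mem_ker, ← Module.End.mul_apply, ← map_mul,
          show p₁ * (a * p₀) = a * (p₀ * p₁) by ring, map_mul, hCH, mul_zero,
          LinearMap.zero_apply]
      have h2 := hQ _ h1
      rw [← Module.End.mul_apply, ← map_mul] at h2
      have h3 : p₀ * Q = p₀ * (Q * (a * p₀)) + (b * Q) * (p₀ * p₁) := by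
        calc p₀ * Q = p₀ * Q * (a * p₀ + b * p₁) := by rw [hab, mul_one]
          _ = _ := by ring
      rw [h3, map_add, map_mul (aeval A) (b * Q), hCH, mul_zero, add_zero, map_mul,
        Module.End.mul_apply, h2, map_zero, LinearMap.zero_apply]
    refine dvd_of_dvd_charpoly hsq ⟨p₀, by rw [hχ]; ring⟩ (fun z hz hz' => ?_)
    have h1 := isRoot_of_eigenvalue h0 hz'
    rw [Polynomial.map_mul, IsRoot, eval_mul, mul_eq_zero] at h1
    rcases h1 with h1 | h1
    · exfalso
      obtain ⟨a, b, hab⟩ := hco
      have h2 := congrArg (fun p => (p.map (algebraMap K (AlgebraicClosure K))).eval z) hab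
      simp only [Polynomial.map_add, Polynomial.map_mul, eval_add, eval_mul, h1,
        Polynomial.map_one, eval_one, mul_zero, zero_add] at h2
      rw [hz, mul_zero] at h2
      exact zero_ne_one h2
    · exact h1
  refine ⟨?_, hdvd⟩
  -- the dimension
  have hst₀ : ∀ x ∈ U₀, A x ∈ U₀ := by
    intro x hx
    rw [hU₀, LinearMap.mem_ker] at hx ⊢
    have : aeval A p₀ (A x) = A (aeval A p₀ x) := by
      rw [← Module.End.mul_apply, ← Module.End.mul_apply]
      congr 1
      have h1 : aeval A (p₀ * X) = aeval A (X * p₀) := by rw [mul_comm]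
      rwa [map_mul, map_mul, aeval_X] at h1
    rw [this, hx, map_zero]
  have hst₁ : ∀ x ∈ U₁, A x ∈ U₁ := by
    intro x hx
    rw [hU₁, LinearMap.mem_ker] at hx ⊢
    have : aeval A p₁ (A x) = A (aeval A p₁ x) := by
      rw [← Module.End.mul_apply, ← Module.End.mul_apply]
      congr 1
      have h1 : aeval A (p₁ * X) = aeval A (X * p₁) := by rw [mul_comm]
      rwa [map_mul, map_mul, aeval_X] at h1
    rw [this, hx, map_zero]
  have hcompl : IsCompl U₀ U₁ := by
    constructor
    · exact Polynomial.disjoint_ker_aeval_of_isCoprime A hco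
    · rw [codisjoint_iff, hU₀, hU₁, Polynomial.sup_ker_aeval_eq_ker_aeval_mul_of_coprime A hco, hCH,
        LinearMap.ker_zero]
  set e := Submodule.prodEquivOfIsCompl U₀ U₁ hcompl with he
  set A₀ := A.restrict hst₀ with hA₀
  set A₁ := A.restrict hst₁ with hA₁
  have hconj : e.conj (A₀.prodMap A₁) = A := by
    apply LinearMap.ext
    intro x
    obtain ⟨⟨a, b⟩, rfl⟩ := e.surjective x
    rw [LinearEquiv.conj_apply_apply, LinearEquiv.symm_apply_apply, LinearMap.prodMap_apply,
      he, Submodule.coe_prodEquivOfIsCompl', Submodule.coe_prodEquivOfIsCompl', map_add]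
    rfl
  have hmul : A₀.charpoly * A₁.charpoly = p₀ * p₁ := by
    rw [← LinearMap.charpoly_prodMap, ← LinearEquiv.charpoly_conj e, hconj, hχ]
  have haev : ∀ (Q : K[X]) (x : U₁), ((aeval A₁ Q x : U₁) : V) = aeval A Q x := by
    intro Q x
    induction Q using Polynomial.induction_on' with
    | add a b ha hb =>
      rw [map_add, map_add, LinearMap.add_apply, LinearMap.add_apply, Submodule.coe_add, ha, hb]
    | monomial r c =>
      rw [aeval_monomial, aeval_monomial, Algebra.algebraMap_eq_smul_one, smul_mul_assoc, one_mul,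
        Algebra.algebraMap_eq_smul_one, smul_mul_assoc, one_mul, LinearMap.smul_apply,
        LinearMap.smul_apply, Submodule.coe_smul]
      congr 1
      induction r with
      | zero => rfl
      | succ r ih =>
        rw [pow_succ', pow_succ', Module.End.mul_apply, Module.End.mul_apply, ← ih]
        rfl
  have hk₁ : aeval A₁ p₁ = 0 := by
    apply LinearMap.ext
    intro x
    apply Subtype.ext
    rw [haev]
    exact x.2
  have hcop : IsCoprime A₁.charpoly p₀ := by
    rw [← Polynomial.isCoprime_map (algebraMap K (AlgebraicClosure K)),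
      Polynomial.isCoprime_iff_aeval_ne_zero_of_isAlgClosed (AlgebraicClosure K)
        (AlgebraicClosure K)]
    intro z
    by_contra h0
    push Not at h0
    have h1 : (A₁.charpoly.map (algebraMap K (AlgebraicClosure K))).IsRoot z := by
      have := h0.1
      rwa [coe_aeval_eq_eval] at this
    have h2 : (p₀.map (algebraMap K (AlgebraicClosure K))).IsRoot z := by
      have := h0.2
      rwa [coe_aeval_eq_eval] at this
    rw [← LinearMap.charpoly_baseChange, ← Module.End.hasEigenvalue_iff_isRoot_charpoly] at h1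
    have h3 := isRoot_of_eigenvalue hk₁ h1
    obtain ⟨a, b, hab⟩ := hco
    have h4 := congrArg (fun p => (p.map (algebraMap K (AlgebraicClosure K))).eval z) hab
    simp only [Polynomial.map_add, Polynomial.map_mul, eval_add, eval_mul,
      Polynomial.map_one, eval_one] at h4
    rw [h2, h3, mul_zero, mul_zero, add_zero] at h4
    exact zero_ne_one h4
  have hd1 : A₁.charpoly ∣ p₁ := by
    apply hcop.dvd_of_dvd_mul_left
    rw [← hmul]
    exact Dvd.intro_left _ rfl
  have hd2 : p₁ ∣ A₁.charpoly := by
    apply hdvd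
    intro a ha
    have h1 := haev A₁.charpoly ⟨a, ha⟩
    rw [LinearMap.aeval_self_charpoly] at h1
    exact h1.symm
  have hn0 : A₁.charpoly ≠ 0 := (LinearMap.charpoly_monic A₁).ne_zero
  have h1 := natDegree_le_of_dvd hd1 hsq.ne_zero
  have h2 := natDegree_le_of_dvd hd2 hn0
  rw [LinearMap.charpoly_natDegree] at h1 h2
  exact le_antisymm h1 h2

end Pool.Agent.K4H38.ZO
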