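import Pool.Agent.K4H38.ZO.Defs

/-!
# Theories with a Frobenius endomorphism: definitions
-/

open CategoryTheory AlgebraicGeometry Polynomial

set_option linter.checkUnivs false

universe u₁ v₁ u v

namespace Pool.Agent.K4H38.ZO

open Pool.Agent.H914 Pool.Agent.Y106.One VarClass Obj WeilCohomology

variable {k : Type u} [Field k] {𝒱 : VarClass k} {ops : CycleOps 𝒱}
  {k₀ : Type u₁} [Field k₀] {𝒱₀ : VarClass k₀} {ops₀ : CycleOps 𝒱₀}

/-- The theory `W` satisfies the Riemann hypothesis for the endomorphism `f` of `X`, every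
correspondence of degree zero from `X` to `X` commutes with a power `(f^*)^m`, `m ≥ 1`, and the
characteristic polynomial of `f^*` on `H^i(X)` is `P`. In the intended use the base field is the
algebraic closure of a finite field and `f` is the Frobenius endomorphism of a model of `X` over a
finite field (and every cycle on `X × X` is defined over a finite extension of this field). -/
structure IsFrobenius (W : WeilCohomology.{u, v} ops) (X : 𝒱.Obj) (f : X ⟶ X) (q i : ℕ)
    (P : ℚ[X]) : Prop where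
  rh : RiemannHypothesis W X f q
  comm : CommuteWithPowers (Pool.Agent.R907.corrOps W X) (W.map f).toLinearMap
  charpoly : HasCharpolyOn (W.gr X i) (W.map f).toLinearMap P

/-- A theory `W` for the variety `X`, a theory `W₀` for the good reduction `X₀` of `X`, and a
comparison between them, such that the endomorphism `f` of `X₀` is as in `IsFrobenius`. In the
intended use `W` and `W₀` are the `ℓ`-adic theories, for a prime `ℓ`. -/
structure FrobTheory {X : 𝒱.Obj} (ops : CycleOps 𝒱) (ops₀ : CycleOps 𝒱₀) (R : Reduction X 𝒱₀)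
    (i : ℕ) (P : ℚ[X]) where
  /-- the theory for `X` -/
  W : WeilCohomology.{u, v} ops
  /-- the theory for the reduction -/
  W₀ : WeilCohomology.{u₁, v₁} ops₀
  /-- the comparison -/
  C : Comparison W X W₀ R.X₀ R.sp
  frob : IsFrobenius W₀ R.X₀ R.f R.q i P

/-- The kernel of `Q(f^*)` on `H^i(X)`, where `H^i(X)` is identified with the cohomology of the
reduction. -/
def FrobTheory.part {X : 𝒱.Obj} {R : Reduction X 𝒱₀} {i : ℕ} {P : ℚ[X]}
    (Θ : FrobTheory.{u₁, v₁, u, v} ops ops₀ R i P) (Q : ℚ[X]) : Set (Θ.W.H X) :=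
  under Θ.C.s (polyPart Θ.W₀ R.X₀ R.f i Q)

/-- For all theories, the cycle `z` of codimension `i` on `X × X` induces the inverse of
`ξ ^ (n - i)` on the kernel of `g(f^*)` on `H^i(X)`, of dimension `deg g`, and all cycles of
codimension `i` on `X × X` act as zero on the image under `ξ ^ (n - i)` of the kernel of `h(f^*)`,
of dimension `deg h`. -/
def SplitsForAll {X : 𝒱.Obj} (ops : CycleOps 𝒱) (ops₀ : CycleOps 𝒱₀) (R : Reduction X 𝒱₀) (i : ℕ)
    (P : ℚ[X]) (D : X.Cycles) (z : (X.prod X).Cycles) (g h : ℚ[X]) : Prop :=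
  ∀ Θ : FrobTheory.{u₁, v₁, u, v} ops ops₀ R i P,
    Splits (Θ.part g) (Θ.part h) (corrLef Θ.W X D i (Θ.W.cl _ z))
      (Pool.Agent.R907.lefOps Θ.W X D i) g.natDegree h.natDegree

/-- For all theories, the cycle `z` of codimension `i` on `X × X` induces the inverse of
`ξ ^ (n - i)` on the kernel of `Q(f^*)` on `H^i(X)`. -/
def InvertsForAll {X : 𝒱.Obj} (ops : CycleOps 𝒱) (ops₀ : CycleOps 𝒱₀) (R : Reduction X 𝒱₀) (i : ℕ)
    (P : ℚ[X]) (D : X.Cycles) (z : (X.prod X).Cycles) (Q : ℚ[X]) : Prop :=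
  ∀ Θ : FrobTheory.{u₁, v₁, u, v} ops ops₀ R i P,
    IdentityOn (Θ.part Q) (corrLef Θ.W X D i (Θ.W.cl _ z))

/-- For some theory, some cycle of codimension `i` on `X × X` does not act as zero on the image
under `ξ ^ (n - i)` of the kernel of `Q(f^*)` on `H^i(X)`. -/
def HitForOne {X : 𝒱.Obj} (ops : CycleOps 𝒱) (ops₀ : CycleOps 𝒱₀) (R : Reduction X 𝒱₀) (i : ℕ)
    (P : ℚ[X]) (D : X.Cycles) (Q : ℚ[X]) : Prop :=
  ∃ Θ : FrobTheory.{u₁, v₁, u, v} ops ops₀ R i P,
    HitBy (Θ.part Q) (Pool.Agent.R907.lefOps Θ.W X D i)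

end Pool.Agent.K4H38.ZO
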