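import Pool.Agent.K4H38.ZO.Lin
import Pool.Agent.K4H38.ZO.DefsB
import Pool.Agent.R907.Crit
import Pool.Agent.H447R3.SimA

/-!
# Correspondences on a part of the cohomology with simple Frobenius spectrum
-/

open CategoryTheory AlgebraicGeometry Finset Polynomial

set_option linter.unusedSectionVars false

universe u₁ v₁ u v

namespace Pool.Agent.K4H38.ZO

open Pool.Agent.H914 Pool.Agent.H447 Pool.Agent.Y106.One Pool.Agent.R907 VarClass Obj
  WeilCohomology

variable {k : Type u} [Field k] {𝒱 : VarClass k} {ops : CycleOps 𝒱} {X : 𝒱.Obj} {f : X ⟶ X}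
  {q i : ℕ} {P₀ P₁ : ℚ[X]} {W W' : WeilCohomology.{u, v} ops}

/-- The operator `f^*`. -/
noncomputable abbrev fr (W : WeilCohomology.{u, v} ops) {X : 𝒱.Obj} (f : X ⟶ X) :
    Module.End W.K (W.H X) :=
  (W.map f).toLinearMap

lemma mem_polyPart {P : ℚ[X]} {a : W.H X} :
    a ∈ polyPart W X f i P ↔ a ∈ W.gr X i ∧ ev (fr W f) P a = 0 := Iff.rfl

lemma ev_mem (P : ℚ[X]) {a : W.H X} (ha : a ∈ W.gr X i) : ev (fr W f) P a ∈ W.gr X i :=
  real_mem (T := fun W => ev (fr W f) P) ((realized_map f).ev P) W ha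

lemma restrict_aeval {K V : Type*} [Field K] [AddCommGroup V] [Module K V]
    {U : Submodule K V} {A : Module.End K V} (hA : ∀ x ∈ U, A x ∈ U) (p : K[X]) (x : U) :
    ((aeval (A.restrict hA) p x : U) : V) = aeval A p x := by
  induction p using Polynomial.induction_on' with
  | add a b ha hb =>
    rw [map_add, map_add, LinearMap.add_apply, LinearMap.add_apply, Submodule.coe_add, ha, hb]
  | monomial r c =>
    rw [aeval_monomial, aeval_monomial, Algebra.algebraMap_eq_smul_one, smul_mul_assoc, one_mul,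
      Algebra.algebraMap_eq_smul_one, smul_mul_assoc, one_mul, LinearMap.smul_apply,
      LinearMap.smul_apply, Submodule.coe_smul]
    congr 1
    induction r with
    | zero => rfl
    | succ r ih =>
      rw [pow_succ', pow_succ', Module.End.mul_apply, Module.End.mul_apply, ← ih]
      rfl

lemma IsFrobenius.kills {P : ℚ[X]} (h : IsFrobenius W X f q i P) {a : W.H X}
    (ha : a ∈ W.gr X i) : ev (fr W f) P a = 0 := by
  obtain ⟨h0, hχ⟩ := h.charpoly
  have h1 := restrict_aeval h0 ((fr W f).restrict h0).charpoly ⟨a, ha⟩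
  rw [LinearMap.aeval_self_charpoly, hχ] at h1
  exact h1.symm

/-- Correspondences of degree zero preserve the part killed by `P₁`. -/
lemma IsFrobenius.stable_right (h : IsFrobenius W X f q i (P₀ * P₁)) (hP : Unrelated P₀ P₁)
    {T : Fam.{u, v} ops X} (hT : Realized ops X 0 T) {a : W.H X}
    (ha : a ∈ polyPart W X f i P₁) : T W a ∈ polyPart W X f i P₁ := by
  rcases hT with ⟨p, hp, z, hz, hTz⟩ | ⟨hd, _⟩
  · obtain rfl : p = X.dim := by omega
    obtain ⟨m, hm, hc⟩ := h.comm (W.corr (W.cl _ z)) ⟨z, hz, rfl⟩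
    rw [hTz]
    have hst : ∀ a ∈ W.gr X i, W.corr (W.cl _ z) a ∈ W.gr X i := fun a ha =>
      real_mem (T := fun W => W.corr (W.cl _ z)) (Or.inl ⟨X.dim, by simp, z, hz, fun _ => rfl⟩) W ha
    exact ⟨hst a ha.1, preserves_right hP hm hc hst (fun a ha => h.kills ha) ha.1 ha.2⟩
  · omega

/-- Correspondences of degree zero preserve the part killed by `P₀`. -/
lemma IsFrobenius.stable_left (h : IsFrobenius W X f q i (P₀ * P₁)) (hP : Unrelated P₀ P₁)
    {T : Fam.{u, v} ops X} (hT : Realized ops X 0 T) {a : W.H X}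
    (ha : a ∈ polyPart W X f i P₀) : T W a ∈ polyPart W X f i P₀ := by
  rcases hT with ⟨p, hp, z, hz, hTz⟩ | ⟨hd, _⟩
  · obtain rfl : p = X.dim := by omega
    obtain ⟨m, hm, hc⟩ := h.comm (W.corr (W.cl _ z)) ⟨z, hz, rfl⟩
    rw [hTz]
    have hst : ∀ a ∈ W.gr X i, W.corr (W.cl _ z) a ∈ W.gr X i := fun a ha =>
      real_mem (T := fun W => W.corr (W.cl _ z)) (Or.inl ⟨X.dim, by simp, z, hz, fun _ => rfl⟩) W ha
    exact ⟨hst a ha.1, preserves_left hP hm hc hst (fun a ha => h.kills ha) ha.1 ha.2⟩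
  · omega

/-- Traces on the part killed by `P₁`. -/
lemma trace_part (h : IsFrobenius W X f q i (P₀ * P₁)) {a b : ℚ[X]} (hab : a * P₀ + b * P₁ = 1)
    {A : Module.End W.K (W.H X)} (hA : ∀ x ∈ polyPart W X f i P₁, A x ∈ polyPart W X f i P₁) :
    LinearMap.trace W.K (polyPart W X f i P₁) (A.restrict hA) =
      LinearMap.trace W.K (W.H X) (proj (W.isInternal X) i * (A * ev (fr W f) (a * P₀))) := by
  set P := proj (W.isInternal X) i with hPdef
  have h1 : ∀ x, ev (fr W f) (a * P₀) (P x) ∈ polyPart W X f i P₁ := by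
    intro x
    refine ⟨ev_mem _ (proj_mem _ i x), ?_⟩
    change ev (fr W f) P₁ (ev (fr W f) (a * P₀) (P x)) = 0
    rw [← Module.End.mul_apply, ← map_mul, show P₁ * (a * P₀) = a * (P₀ * P₁) by ring, map_mul,
      Module.End.mul_apply, h.kills (proj_mem _ i x), map_zero]
  have h2 : ∀ x ∈ polyPart W X f i P₁, ev (fr W f) (a * P₀) (P x) = x := by
    intro x hx
    have e1 : P x = x := proj_same _ hx.1
    have e2 : ev (fr W f) P₁ x = 0 := hx.2
    rw [e1, show a * P₀ = 1 - b * P₁ by rw [← hab]; ring, map_sub, map_one, map_mul,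
      LinearMap.sub_apply, Module.End.mul_apply, e2, map_zero, Module.End.one_apply, sub_zero]
  have h3 : ∀ x, (A * (ev (fr W f) (a * P₀) * P)) x ∈ polyPart W X f i P₁ :=
    fun x => hA _ (h1 x)
  have h4 := LinearMap.trace_restrict_eq_of_forall_mem (polyPart W X f i P₁)
    (A * (ev (fr W f) (a * P₀) * P)) h3
  rw [LinearMap.trace_mul_comm, mul_assoc, ← h4]
  congr 1
  apply LinearMap.ext
  intro x
  apply Subtype.ext
  change A x = A (ev (fr W f) (a * P₀) (P x))
  rw [h2 x x.2]

/-- The traces on the part killed by `P₁` are rational and independent of the theory. -/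
lemma trace_part_rat (hq : 1 < q) (h : IsFrobenius W X f q i (P₀ * P₁))
    (h' : IsFrobenius W' X f q i (P₀ * P₁)) (hP : Unrelated P₀ P₁) {A : Fam.{u, v} ops X}
    (hAr : Realized ops X 0 A) :
    ∃ t : ℚ, LinearMap.trace W.K (polyPart W X f i P₁)
        ((A W).restrict (fun _ hx => h.stable_right hP hAr hx)) = t ∧
      LinearMap.trace W'.K (polyPart W' X f i P₁)
        ((A W').restrict (fun _ hx => h'.stable_right hP hAr hx)) = t := by
  obtain ⟨a, b, hab⟩ := hP.coprime
  obtain ⟨t, ht, ht'⟩ := sameTraces_of_rh hq h.rh h'.rh i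
    (fun W => A W * ev (fr W f) (a * P₀)) ((hAr.mul ((realized_map f).ev _)).cast (zero_add 0))
  exact ⟨t, by rw [trace_part h hab]; exact ht, by rw [trace_part h' hab]; exact ht'⟩

lemma restrict_mul' {K V : Type*} [Field K] [AddCommGroup V] [Module K V] {U : Submodule K V}
    {A B : Module.End K V} (hA : ∀ x ∈ U, A x ∈ U) (hB : ∀ x ∈ U, B x ∈ U)
    (hAB : ∀ x ∈ U, (A * B) x ∈ U) : A.restrict hA * B.restrict hB = (A * B).restrict hAB := by
  apply LinearMap.ext
  intro x
  apply Subtype.ext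
  rfl

lemma restrict_pow' {K V : Type*} [Field K] [AddCommGroup V] [Module K V] {U : Submodule K V}
    {A : Module.End K V} (hA : ∀ x ∈ U, A x ∈ U) (m : ℕ) (hm : ∀ x ∈ U, (A ^ m) x ∈ U) :
    (A.restrict hA) ^ m = (A ^ m).restrict hm := by
  have key : ∀ m : ℕ, ∀ x : U, (((A.restrict hA) ^ m) x : V) = (A ^ m) x := by
    intro m
    induction m with
    | zero => intro x; rfl
    | succ m ih =>
      intro x
      rw [pow_succ', pow_succ', Module.End.mul_apply, Module.End.mul_apply, ← ih x]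
      rfl
  apply LinearMap.ext
  intro x
  apply Subtype.ext
  exact key m x

lemma restrict_ev {K V : Type*} [Field K] [CharZero K] [AddCommGroup V] [Module K V]
    {U : Submodule K V} {A : Module.End K V} (hA : ∀ x ∈ U, A x ∈ U) (g : ℚ[X]) (x : U) :
    ((ev (A.restrict hA) g x : U) : V) = ev A g x :=
  restrict_aeval hA _ x

lemma fr_stable (P : ℚ[X]) : ∀ x ∈ polyPart W X f i P, fr W f x ∈ polyPart W X f i P := by
  rintro x ⟨hx, hx'⟩
  refine ⟨W.map_mem f hx, ?_⟩
  have h1 : ev (fr W f) P x = 0 := hx'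
  change ev (fr W f) P (fr W f x) = 0
  rw [← Module.End.mul_apply, ← (ev_commute (Commute.refl (fr W f)) P).eq, Module.End.mul_apply,
    h1, map_zero]

/-- The dimension and the minimal polynomial of the part killed by `P₁`. -/
lemma IsFrobenius.simple (h : IsFrobenius W X f q i (P₀ * P₁)) (hP : Unrelated P₀ P₁) :
    Module.finrank W.K (polyPart W X f i P₁) = P₁.natDegree ∧
      ∀ Q : W.K[X], (∀ a ∈ polyPart W X f i P₁, aeval (fr W f) Q a = 0) →
        P₁.map (algebraMap ℚ W.K) ∣ Q := by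
  have hsep : P₁.Separable := PerfectField.separable_iff_squarefree.2 hP.squarefree
  have hsq : Squarefree (P₁.map (algebraMap ℚ W.K)) := hsep.map.squarefree
  have hco : IsCoprime (P₀.map (algebraMap ℚ W.K)) (P₁.map (algebraMap ℚ W.K)) :=
    hP.coprime.map (Polynomial.mapRingHom (algebraMap ℚ W.K))
  obtain ⟨h0, hχ⟩ := h.charpoly
  rw [Polynomial.map_mul] at hχ
  obtain ⟨h1, h2⟩ := simple_part hχ hco hsq
  have key : ∀ (Q : W.K[X]) (x : W.gr X i),
      ((aeval ((fr W f).restrict h0) Q x : W.gr X i) : W.H X) =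
      aeval (fr W f) Q x := fun Q x => restrict_aeval _ Q x
  constructor
  · have e1 : polyPart W X f i P₁ = (LinearMap.ker (aeval ((fr W f).restrict h0)
        (P₁.map (algebraMap ℚ W.K)))).map (W.gr X i).subtype := by
      ext x
      constructor
      · rintro ⟨hx, hx'⟩
        refine ⟨⟨x, hx⟩, ?_, rfl⟩
        change aeval ((fr W f).restrict h0) (P₁.map (algebraMap ℚ W.K)) ⟨x, hx⟩ = 0
        apply Subtype.ext
        rw [key]
        exact hx'
      · rintro ⟨y, hy, rfl⟩
        refine ⟨y.2, ?_⟩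
        have hy' : aeval ((fr W f).restrict h0) (P₁.map (algebraMap ℚ W.K)) y = 0 := hy
        change aeval (fr W f) (P₁.map (algebraMap ℚ W.K)) (y : W.H X) = 0
        rw [← key, hy']
        rfl
    rw [e1, Submodule.finrank_map_subtype_eq, h1, Polynomial.natDegree_map]
  · intro Q hQ
    apply h2
    intro a ha
    have ha' : aeval ((fr W f).restrict h0) (P₁.map (algebraMap ℚ W.K)) a = 0 := ha
    apply Subtype.ext
    rw [key]
    apply hQ
    refine ⟨a.2, ?_⟩
    change aeval (fr W f) (P₁.map (algebraMap ℚ W.K)) (a : W.H X) = 0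
    rw [← key, ha']
    rfl

lemma IsFrobenius.hasSimple (h : IsFrobenius W X f q i (P₀ * P₁)) (hP : Unrelated P₀ P₁)
    (hst : ∀ x ∈ polyPart W X f i P₁, fr W f x ∈ polyPart W X f i P₁) :
    HasSimple ((fr W f).restrict hst) := by
  obtain ⟨h1, h2⟩ := h.simple hP
  have hsep : P₁.Separable := PerfectField.separable_iff_squarefree.2 hP.squarefree
  refine ⟨P₁.map (algebraMap ℚ W.K), hsep.map.squarefree, ?_, fun Q hQ => h2 Q fun a ha => ?_⟩
  · rw [Polynomial.natDegree_map, h1]
  · have h3 := restrict_aeval hst Q ⟨a, ha⟩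
    rw [hQ] at h3
    exact h3.symm

/-- **On a part with simple Frobenius spectrum, correspondences are rational polynomials in
Frobenius.** -/
theorem exists_poly (hq : 1 < q) (h : IsFrobenius W X f q i (P₀ * P₁)) (hP : Unrelated P₀ P₁)
    {T : Fam.{u, v} ops X} (hT : Realized ops X 0 T) :
    ∃ c : ℚ[X], ∀ W' : WeilCohomology.{u, v} ops, IsFrobenius W' X f q i (P₀ * P₁) →
      ∀ a ∈ polyPart W' X f i P₁, T W' a = ev (fr W' f) c a := by
  -- commutation
  have hcom : ∀ W' : WeilCohomology.{u, v} ops, IsFrobenius W' X f q i (P₀ * P₁) →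
      ∀ a ∈ polyPart W' X f i P₁, T W' (fr W' f a) = fr W' f (T W' a) := by
    intro W' h' a ha
    have hst : ∀ a ∈ W'.gr X i, T W' a ∈ W'.gr X i := fun a ha => real_mem hT W' ha
    obtain ⟨m, hm, hc⟩ : ∃ m : ℕ, 1 ≤ m ∧ Commute (T W') (fr W' f ^ m) := by
      rcases hT with ⟨p, hp, z, hz, hTz⟩ | ⟨hd, _⟩
      · obtain rfl : p = X.dim := by omega
        obtain ⟨m, hm, hc⟩ := h'.comm (W'.corr (W'.cl _ z)) ⟨z, hz, rfl⟩
        exact ⟨m, hm, by rw [hTz]; exact hc⟩
      · omega
    exact commutes_right hP hm hc hst (fun a ha => h'.kills ha) ha.1 ha.2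
  have hst : ∀ W' : WeilCohomology.{u, v} ops, IsFrobenius W' X f q i (P₀ * P₁) →
      ∀ x ∈ polyPart W' X f i P₁, T W' x ∈ polyPart W' X f i P₁ :=
    fun W' h' x hx => h'.stable_right hP hT hx
  set G := (fr W f).restrict (fr_stable (i := i) P₁) with hG
  set U := (T W).restrict (hst W h) with hU
  have hGk : ∀ k : ℕ, G ^ k = (fr W f ^ k).restrict (fun x hx =>
      h.stable_right hP (T := fun W => fr W f ^ k) ((realized_map f).pow0 _) hx) := by
    intro k
    rw [hG]
    exact restrict_pow' _ _ _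
  have hUG : U * G = G * U := by
    apply LinearMap.ext
    intro x
    apply Subtype.ext
    exact hcom W h x x.2
  obtain ⟨c, hc⟩ := exists_rat_of_traces (ε := 1) (h.hasSimple hP (fr_stable P₁)) hUG
    (by rw [one_mul, mul_one]) (one_mul 1)
    (by
      intro k
      obtain ⟨t, ht, -⟩ := trace_part_rat hq h h hP
        (A := fun W => fr W f ^ k) ((realized_map f).pow0 _)
      refine ⟨t, ?_⟩
      rw [one_mul, hGk]
      exact ht)
    (by
      intro k
      obtain ⟨t, ht, -⟩ := trace_part_rat hq h h hP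
        (A := fun W => T W * fr W f ^ k)
        ((hT.mul ((realized_map f).pow0 _)).cast (zero_add 0))
      refine ⟨t, ?_⟩
      rw [one_mul, hGk, hU, restrict_mul']
      exact ht)
  have hW : ∀ a ∈ polyPart W X f i P₁, T W a = ev (fr W f) c a := by
    intro a ha
    have h1 := congrArg (fun F => ((F ⟨a, ha⟩ : polyPart W X f i P₁) : W.H X)) hc
    beta_reduce at h1
    have h2 : ((ev G c ⟨a, ha⟩ : polyPart W X f i P₁) : W.H X) = ev (fr W f) c a := by
      rw [hG, restrict_ev]
    rw [h2] at h1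
    exact h1
  refine ⟨c, fun W' h' a ha => ?_⟩
  have hdr : Realized.{u, v} ops X 0 (fun W => T W - ev (fr W f) c) :=
    hT.sub ((realized_map f).ev c)
  set G' := (fr W' f).restrict (fr_stable (i := i) P₁) with hG'
  set U' := (T W' - ev (fr W' f) c).restrict
    (fun x hx => h'.stable_right hP (T := fun W => T W - ev (fr W f) c) hdr hx) with hU'
  have hGk' : ∀ k : ℕ, G' ^ k = (fr W' f ^ k).restrict (fun x hx =>
      h'.stable_right hP (T := fun W => fr W f ^ k) ((realized_map f).pow0 _) hx) := by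
    intro k
    rw [hG']
    exact restrict_pow' _ _ _
  have hUG' : U' * G' = G' * U' := by
    apply LinearMap.ext
    intro x
    apply Subtype.ext
    change T W' (fr W' f x) - ev (fr W' f) c (fr W' f x) =
      fr W' f (T W' x - ev (fr W' f) c x)
    rw [hcom W' h' x x.2, map_sub, ← Module.End.mul_apply (ev (fr W' f) c),
      ← (ev_commute (Commute.refl (fr W' f)) c).eq, Module.End.mul_apply]
  have hz : U' = 0 := by
    refine eq_zero_of_traces (ε := 1) (h'.hasSimple hP (fr_stable P₁)) hUG'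
      (by rw [one_mul, mul_one]) (one_mul 1) ?_
    intro k
    obtain ⟨t, ht, ht'⟩ := trace_part_rat hq h h' hP
      (A := fun W => (T W - ev (fr W f) c) * fr W f ^ k)
      ((hdr.mul ((realized_map f).pow0 _)).cast (zero_add 0))
    have h0 : ((T W - ev (fr W f) c) * fr W f ^ k).restrict (fun x hx =>
        h.stable_right hP (T := fun W => (T W - ev (fr W f) c) * fr W f ^ k)
          ((hdr.mul ((realized_map f).pow0 _)).cast (zero_add 0)) hx) = 0 := by
      apply LinearMap.ext
      intro x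
      apply Subtype.ext
      change (T W - ev (fr W f) c) ((fr W f ^ k) x) = 0
      have hx : (fr W f ^ k) x ∈ polyPart W X f i P₁ :=
        h.stable_right hP (T := fun W => fr W f ^ k) ((realized_map f).pow0 _) x.2
      rw [LinearMap.sub_apply, hW _ hx, sub_self]
    beta_reduce at ht ht'
    rw [h0, map_zero] at ht
    rw [one_mul, hGk', hU', restrict_mul' _ _ (fun x hx => h'.stable_right hP
      (T := fun W => (T W - ev (fr W f) c) * fr W f ^ k)
      ((hdr.mul ((realized_map f).pow0 _)).cast (zero_add 0)) hx), ht']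
    have : t = 0 := by exact_mod_cast ht.symm
    rw [this, Rat.cast_zero]
  have h1 := congrArg (fun F => ((F ⟨a, ha⟩ : polyPart W' X f i P₁) : W'.H X)) hz
  beta_reduce at h1
  have h2 : T W' a - ev (fr W' f) c a = 0 := h1
  exact sub_eq_zero.1 h2

end Pool.Agent.K4H38.ZO
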