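import Pool.Agent.K4H38.ZO.Main

/-!
# The criterion for one cycle for all theories
-/

open CategoryTheory AlgebraicGeometry Finset Polynomial

set_option linter.unusedSectionVars false

universe u₁ v₁ u v

namespace Pool.Agent.K4H38.ZO

open Pool.Agent.H914 Pool.Agent.H447 Pool.Agent.W537 Pool.Agent.Y106.One Pool.Agent.R907
  VarClass Obj WeilCohomology

variable {k : Type u} [Field k] {𝒱 : VarClass k} {ops : CycleOps 𝒱} {X : 𝒱.Obj}
  {k₀ : Type u₁} [Field k₀] {𝒱₀ : VarClass k₀} {ops₀ : CycleOps 𝒱₀} {R : Reduction X 𝒱₀}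
  {i : ℕ} {P₀ P₁ : ℚ[X]}

/-- **The structure theorem.** -/
theorem exists_lefschetz_factor (hP : Unrelated P₀ P₁) {D : X.Cycles} (hD : X.IsCyc 1 D)
    (hi : i ≤ X.dim) : ∃ (z : (X.prod X).Cycles) (g h : ℚ[X]), (X.prod X).IsCyc i z ∧
      g * h = P₁ ∧ ∀ Θ : FrobTheory.{u₁, v₁, u, v} ops ops₀ R i (P₀ * P₁),
        IdentityOn (Θ.part g) (corrLef Θ.W X D i (Θ.W.cl _ z)) ∧
        ¬ HitBy (Θ.part h) (lefOps Θ.W X D i) := by
  have hJ := lefIdeal_isLeftIdeal.{u, v} (ops := ops) hD hi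
  obtain ⟨E, ⟨z, hz, hEz⟩, g, h, e, hgh, hEe, hge, hall⟩ :=
    exists_factor (ops₀ := ops₀) (R := R) (i := i) hP hJ
  refine ⟨z, g, h, hz, hgh, fun Θ => ⟨fun a ha => ?_, ?_⟩⟩
  · have ha1 : a ∈ Θ.part P₁ := Θ.part_mono (Dvd.intro h hgh) ha
    have h1 : corrLef Θ.W X D i (Θ.W.cl _ z) = E Θ.W := by rw [corrLef_eq, hEz]
    rw [h1]
    apply Θ.C.s.injective
    rw [hEe Θ a ha1]
    have h2 : ev (fr Θ.W₀ R.f) (1 - e) (Θ.C.s a) = 0 :=
      ev_of_dvd hge (mem_polyPart.1 (FrobTheory.mem_part.1 ha).2).2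
    rw [map_sub, map_one, LinearMap.sub_apply, Module.End.one_apply, sub_eq_zero] at h2
    exact h2.symm
  · rintro ⟨F, h1, a, ha, hne⟩
    apply hne
    have ha1 : a ∈ Θ.part P₁ := Θ.part_mono (Dvd.intro_left g hgh) ha
    obtain ⟨T, hT, rfl⟩ := mem_lefOps_iff.1 h1
    obtain ⟨c, hc⟩ := exists_acts (ops₀ := ops₀) (R := R) (i := i) hP (hJ.real T hT)
    apply Θ.C.s.injective
    rw [hc Θ a ha1, map_zero]
    exact ev_of_dvd (hall T hT c hc) (mem_polyPart.1 (FrobTheory.mem_part.1 ha).2).2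

/-- The parts for the irreducible factors of `P₁` are not zero. -/
lemma exists_ne_zero {W : WeilCohomology.{u, v} ops} {f : X ⟶ X} {q : ℕ}
    (h : IsFrobenius W X f q i (P₀ * P₁)) (hP : Unrelated P₀ P₁) {π : ℚ[X]} (hπ : Irreducible π)
    (hd : π ∣ P₁) : ∃ a ∈ polyPart W X f i π, a ≠ 0 := by
  by_contra hno
  push Not at hno
  obtain ⟨ρ, hρ⟩ := hd
  have hP0 := hP.ne_zero'
  have hρ0 : ρ ≠ 0 := by rintro rfl; rw [mul_zero] at hρ; exact hP0 hρ
  have h1 : ∀ a ∈ polyPart W X f i P₁, ev (fr W f) ρ a = 0 := by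
    intro a ha
    apply hno
    refine ⟨ev_mem _ ha.1, ?_⟩
    change ev (fr W f) π (ev (fr W f) ρ a) = 0
    rw [← Module.End.mul_apply, ← map_mul, ← hρ]
    exact (mem_polyPart.1 ha).2
  have h4 := (h.simple hP).2 (ρ.map (algebraMap ℚ W.K)) h1
  have h5 : (ρ.map (algebraMap ℚ W.K)) ≠ 0 := by
    rwa [Ne, Polynomial.map_eq_zero]
  have h6 := Polynomial.natDegree_le_of_dvd h4 h5
  rw [Polynomial.natDegree_map, Polynomial.natDegree_map] at h6
  have h9 : P₁.natDegree = π.natDegree + ρ.natDegree := by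
    rw [hρ]; exact Polynomial.natDegree_mul hπ.ne_zero hρ0
  have h10 : 0 < π.natDegree := hπ.natDegree_pos
  omega

lemma IsFrobenius.cast {W : WeilCohomology.{u, v} ops} {f : X ⟶ X} {q : ℕ} {P Q : ℚ[X]}
    (h : IsFrobenius W X f q i P) (hPQ : P = Q) : IsFrobenius W X f q i Q := by
  subst hPQ
  exact h

/-- Moving a factor. -/
lemma Unrelated.of_mul {g h : ℚ[X]} (hP : Unrelated P₀ (g * h)) : Unrelated (P₀ * h) g := by
  have hh0 : h ≠ 0 := by rintro rfl; exact hP.ne_zero' (mul_zero g)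
  have hco : IsCoprime g h := by
    have h1 := hP.squarefree
    rw [← PerfectField.separable_iff_squarefree] at h1
    exact h1.isCoprime
  refine ⟨mul_ne_zero hP.ne_zero hh0, hP.squarefree.squarefree_of_dvd ⟨h, rfl⟩,
    fun m hm α β hα hβ hab => ?_, fun m hm α β hα hβ hab => ?_⟩
  · rw [map_mul, mul_eq_zero] at hα
    rcases hα with hα | hα
    · exact hP.left m hm α β hα (by rw [map_mul, hβ, zero_mul]) hab
    · have h1 := hP.right m hm α β (by rw [map_mul, hα, mul_zero]) (by rw [map_mul, hβ, zero_mul])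
        hab
      subst h1
      obtain ⟨a, b, h2⟩ := hco
      have h3 := congrArg (aeval α) h2
      rw [map_add, map_mul, map_mul, hα, hβ, mul_zero, mul_zero, add_zero, map_one] at h3
      exact zero_ne_one h3
  · exact hP.right m hm α β (by rw [map_mul, hα, zero_mul]) (by rw [map_mul, hβ, zero_mul]) hab

/-- Dimensions and comparison isomorphisms. -/
lemma FrobTheory.finrank_part {P : ℚ[X]} (Θ : FrobTheory.{u₁, v₁, u, v} ops ops₀ R i P)
    (Q : ℚ[X]) : Module.finrank Θ.W.K (Θ.sub Q) =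
      Module.finrank Θ.W₀.K (polyPart Θ.W₀ R.X₀ R.f i Q) := by
  let j : Θ.sub Q ≃+ polyPart Θ.W₀ R.X₀ R.f i Q :=
    { toFun := fun a => ⟨Θ.C.s a, (mem_part.1 a.2).2⟩
      invFun := fun x => ⟨Θ.C.s.symm x, by
        change Θ.C.s (Θ.C.s.symm x) ∈ polyPart Θ.W₀ R.X₀ R.f i Q
        rw [RingEquiv.apply_symm_apply]; exact x.2⟩
      left_inv := fun a => Subtype.ext (Θ.C.s.symm_apply_apply _)
      right_inv := fun x => Subtype.ext (Θ.C.s.apply_symm_apply _)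
      map_add' := fun a b => Subtype.ext (map_add Θ.C.s _ _) }
  have h1 := lift_rank_eq_of_equiv_equiv (Θ.C.σ : Θ.W.K → Θ.W₀.K) j Θ.C.σ.bijective
    (fun r m => Subtype.ext (Θ.C.s_smul r _))
  have h2 := congrArg Cardinal.toNat h1
  rw [Cardinal.toNat_lift, Cardinal.toNat_lift] at h2
  exact h2

/-- The dimension of the part for a factor of `P₁`. -/
lemma FrobTheory.finrank_factor {g h : ℚ[X]}
    (Θ : FrobTheory.{u₁, v₁, u, v} ops ops₀ R i (P₀ * (g * h))) (hP : Unrelated P₀ (g * h)) :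
    HasDim Θ.W.K (Θ.part g) g.natDegree := by
  rw [HasDim, show Θ.part g = (Θ.sub g : Set (Θ.W.H X)) from rfl, Submodule.span_eq,
    Θ.finrank_part]
  exact ((Θ.frob.cast (show P₀ * (g * h) = (P₀ * h) * g by ring)).simple hP.of_mul).1

lemma FrobTheory.exists_ne_zero (Θ : FrobTheory.{u₁, v₁, u, v} ops ops₀ R i (P₀ * P₁))
    (hP : Unrelated P₀ P₁) {π : ℚ[X]} (hπ : Irreducible π) (hd : π ∣ P₁) :
    ∃ a ∈ Θ.part π, a ≠ 0 := by
  obtain ⟨x, hx, hx0⟩ := ZO.exists_ne_zero Θ.frob hP hπ hd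
  refine ⟨Θ.C.s.symm x, FrobTheory.mem_part.2 ⟨?_, ?_⟩, ?_⟩
  · rw [← s_mem_iff Θ.C, RingEquiv.apply_symm_apply]; exact hx.1
  · rw [RingEquiv.apply_symm_apply]; exact hx
  · intro h0
    apply hx0
    rw [← Θ.C.s.apply_symm_apply x, h0, map_zero]

lemma FrobTheory.finrank_factor_right {g h : ℚ[X]}
    (Θ : FrobTheory.{u₁, v₁, u, v} ops ops₀ R i (P₀ * (g * h))) (hP : Unrelated P₀ (g * h)) :
    HasDim Θ.W.K (Θ.part h) h.natDegree := by
  rw [HasDim, show Θ.part h = (Θ.sub h : Set (Θ.W.H X)) from rfl, Submodule.span_eq,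
    Θ.finrank_part]
  have hP' : Unrelated P₀ (h * g) := by rwa [mul_comm h g]
  exact ((Θ.frob.cast (show P₀ * (g * h) = (P₀ * g) * h by ring)).simple hP'.of_mul).1

/-- The operators in the span of a left ideal preserve the parts. -/
lemma KJ_left (Θ : FrobTheory.{u₁, v₁, u, v} ops ops₀ R i (P₀ * P₁)) (hP : Unrelated P₀ P₁)
    {J : Set (Fam.{u, v} ops X)} (hJ : IsLeftIdeal J) {F : Module.End Θ.W.K (Θ.W.H X)}
    (hF : F ∈ KJ J Θ.W) : ∀ a ∈ Θ.sub P₀, F a ∈ Θ.sub P₀ := by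
  induction hF using Submodule.span_induction with
  | mem y hy =>
    obtain ⟨T, hT, rfl⟩ := hy
    exact fun a ha => Θ.stable_left hP (hJ.real T hT) ha
  | zero => intro a _; exact Submodule.zero_mem _
  | add x y _ _ hx hy => exact fun a ha => Submodule.add_mem _ (hx a ha) (hy a ha)
  | smul c x _ hx => exact fun a ha => Submodule.smul_mem _ _ (hx a ha)

lemma KJ_right (Θ : FrobTheory.{u₁, v₁, u, v} ops ops₀ R i (P₀ * P₁)) (hP : Unrelated P₀ P₁)
    {J : Set (Fam.{u, v} ops X)} (hJ : IsLeftIdeal J) {F : Module.End Θ.W.K (Θ.W.H X)}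
    (hF : F ∈ KJ J Θ.W) : ∀ a ∈ Θ.sub P₁, F a ∈ Θ.sub P₁ := by
  induction hF using Submodule.span_induction with
  | mem y hy =>
    obtain ⟨T, hT, rfl⟩ := hy
    exact fun a ha => Θ.stable_right hP (hJ.real T hT) ha
  | zero => intro a _; exact Submodule.zero_mem _
  | add x y _ _ hx hy => exact fun a ha => Submodule.add_mem _ (hx a ha) (hy a ha)
  | smul c x _ hx => exact fun a ha => Submodule.smul_mem _ _ (hx a ha)

lemma FrobTheory.pure (Θ : FrobTheory.{u₁, v₁, u, v} ops ops₀ R i (P₀ * P₁)) :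
    Reduction.Pure.{u₁, v₁} R ops₀ Θ.W :=
  ⟨Θ.W₀, Θ.frob.rh, ⟨Θ.C⟩⟩

/-- **The criterion.** -/
theorem criterion (hP : Unrelated P₀ P₁) {D : X.Cycles} (hD : X.IsCyc 1 D) (hi : i ≤ X.dim)
    (Θ₁ : FrobTheory.{u₁, v₁, u, v} ops ops₀ R i (P₀ * P₁)) :
    OneCycleForAll.{u, v} (ops := ops) (Reduction.Pure.{u₁, v₁} R ops₀) X D i ↔
      InjectedBy (Θ₁.part P₀) (lefOps Θ₁.W X D i) ∧
      ∀ π : ℚ[X], Irreducible π → π ∣ P₁ →
        HitForOne.{u₁, v₁, u, v} ops ops₀ R i (P₀ * P₁) D π := by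
  constructor
  · rintro ⟨z, hz⟩
    have h1 := (inverts_iff hD Θ₁.W hi).1 (hz Θ₁.W Θ₁.pure)
    have h2 : ∀ a ∈ Θ₁.W.gr X i, corrLef Θ₁.W X D i (Θ₁.W.cl _ z) a = a := by
      intro a ha
      rw [corrLef_eq]
      exact h1.2 a (by rwa [show X.dim - (X.dim - i) = i by omega])
    have hzi : (X.prod X).IsCyc i z := h1.1
    have hmem : corrLef Θ₁.W X D i (Θ₁.W.cl _ z) ∈ lefOps Θ₁.W X D i := ⟨z, hzi, rfl⟩
    refine ⟨⟨_, Submodule.subset_span hmem, fun a ha h0 => ?_⟩, fun π hπ hd => ?_⟩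
    · rw [h2 a (FrobTheory.mem_part.1 ha).1] at h0
      exact h0
    · obtain ⟨a, ha, ha0⟩ := Θ₁.exists_ne_zero hP hπ hd
      exact ⟨Θ₁, _, hmem, a, ha, by rw [h2 a (FrobTheory.mem_part.1 ha).1]; exact ha0⟩
  · rintro ⟨⟨F₀, hF₀J, hinj⟩, hB⟩
    rw [span_lefOps] at hF₀J
    have hJ := lefIdeal_isLeftIdeal.{u, v} (ops := ops) hD hi
    obtain ⟨z, g, h, hz, hgh, hall⟩ := exists_lefschetz_factor (ops := ops) (ops₀ := ops₀)
      (R := R) hP hD hi
    have hP0 := hP.ne_zero'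
    have hu : IsUnit h := by
      by_contra hnu
      have hh0 : h ≠ 0 := by rintro rfl; rw [mul_zero] at hgh; exact hP0 hgh.symm
      obtain ⟨π, hπ, hd⟩ := WfDvdMonoid.exists_irreducible_factor hnu hh0
      obtain ⟨Θ, F, hF, a, ha, hne⟩ := hB π hπ (hd.trans (Dvd.intro_left g hgh))
      exact (hall Θ).2 ⟨F, hF, a, Θ.part_mono hd ha, hne⟩
    have hPg : P₁ ∣ g := by
      obtain ⟨w, hw⟩ := hu.exists_right_inv
      exact ⟨w, by rw [← hgh, mul_assoc, hw, mul_one]⟩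
    -- the identity on the part killed by `P₁`
    set F₁ := corrLef Θ₁.W X D i (Θ₁.W.cl _ z) with hF₁
    have hF₁J : F₁ ∈ KJ (lefIdeal.{u, v} ops X D i) Θ₁.W := by
      rw [← span_lefOps]
      exact Submodule.subset_span ⟨z, hz, rfl⟩
    have hid₁ : ∀ a ∈ Θ₁.part P₁, F₁ a = a := fun a ha => (hall Θ₁).1 a (Θ₁.part_mono hPg ha)
    -- the identity on the part killed by `P₀`
    obtain ⟨r, hr⟩ := exists_inv_on (E := F₀) (S := Θ₁.sub P₀) (KJ_left Θ₁ hP hJ hF₀J)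
      (fun a ha h0 => hinj a ha h0)
    set B := aeval F₀ r * F₀ with hBdef
    have hBJ : B ∈ KJ (lefIdeal.{u, v} ops X D i) Θ₁.W := aeval_mul_mem hJ hF₀J r
    have hid₀ : ∀ a ∈ Θ₁.part P₀, B a = a := fun a ha => hr a ha
    set F := F₁ + (B - F₁ * B) with hF
    have hFJ : F ∈ KJ (lefIdeal.{u, v} ops X D i) Θ₁.W :=
      Submodule.add_mem _ hF₁J (Submodule.sub_mem _ hBJ (KJ_mul hJ hF₁J hBJ))
    have hFid : ∀ a ∈ Θ₁.W.gr X i, F a = a := by
      intro a ha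
      obtain ⟨a₀, h0, a₁, h1, rfl⟩ := Θ₁.exists_split hP ha
      have e0 : F a₀ = a₀ := by
        change F₁ a₀ + (B a₀ - F₁ (B a₀)) = a₀
        rw [hid₀ a₀ h0]
        abel
      have e1 : F a₁ = a₁ := by
        change F₁ a₁ + (B a₁ - F₁ (B a₁)) = a₁
        rw [hid₁ (B a₁) (KJ_right Θ₁ hP hJ hBJ a₁ h1), hid₁ a₁ h1, sub_self, add_zero]
      rw [map_add, e0, e1]
    refine oneCycle_of_inj R hD hi Θ₁.pure (E := F) (by rw [span_lefOps]; exact hFJ) ?_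
    intro a ha h0
    rw [← hFid a ha, h0]

/-- **The zero-one law for an isolated eigenvalue.** -/
theorem dichotomy {D : X.Cycles} (hD : X.IsCyc 1 D) (hi : i ≤ X.dim) {P : ℚ[X]}
    {v' : AbsoluteValue ℂ ℝ} {α : ℂ} (h : IsolatedRoot P v' α)
    (hhit : HitForOne.{u₁, v₁, u, v} ops ops₀ R i P D (minpoly ℚ α)) :
    ∃ z : (X.prod X).Cycles, (X.prod X).IsCyc i z ∧
      InvertsForAll.{u₁, v₁, u, v} ops ops₀ R i P D z (minpoly ℚ α) := by
  have hP0 : P ≠ 0 := by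
    rintro rfl
    have := h.simple
    simp at this
  obtain ⟨P₀, rfl, hu⟩ := h.unrelated hP0
  obtain ⟨z, g, h', hz, hgh, hall⟩ := exists_lefschetz_factor (ops := ops) (ops₀ := ops₀)
    (R := R) hu hD hi
  have hα : IsIntegral ℚ α := by
    by_contra hno
    have h1 := minpoly.eq_zero hno
    exact hu.ne_zero' h1
  have hirr := minpoly.irreducible hα
  rw [← hgh] at hirr
  rcases hirr.isUnit_or_isUnit rfl with hg | hh
  · exfalso
    obtain ⟨Θ, F, hF, a, ha, hne⟩ := hhit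
    refine (hall Θ).2 ⟨F, hF, a, Θ.part_mono ?_ ha, hne⟩
    obtain ⟨w, hw⟩ := hg.exists_left_inv
    exact ⟨w, by rw [← hgh, mul_comm g h', mul_assoc, mul_comm g w, hw, mul_one]⟩
  · refine ⟨z, hz, fun Θ a ha => (hall Θ).1 a (Θ.part_mono ?_ ha)⟩
    obtain ⟨w, hw⟩ := hh.exists_right_inv
    exact ⟨w, by rw [← hgh, mul_assoc, hw, mul_one]⟩

end Pool.Agent.K4H38.ZO
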