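import Pool.Agent.R907.CritDefs

/-!
# Parts of the cohomology with simple Frobenius spectrum: definitions
-/

open CategoryTheory AlgebraicGeometry Polynomial

set_option linter.checkUnivs false

universe u₁ v₁ u v

namespace Pool.Agent.K4H38.ZO

open Pool.Agent.H914 Pool.Agent.Y106.One VarClass Obj WeilCohomology

/-- The roots of `P₁` are simple roots of `P₀ P₁`, and remain so up to roots of unity: `P₁` is
squarefree, and for `m ≥ 1` the `m`-th power of a complex root `β` of `P₁` is different from the
`m`-th powers of the complex roots of `P₀` and of the complex roots `α ≠ β` of `P₁`. -/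
structure Unrelated (P₀ P₁ : ℚ[X]) : Prop where
  ne_zero : P₀ ≠ 0
  squarefree : Squarefree P₁
  left : ∀ m : ℕ, 1 ≤ m → ∀ α β : ℂ, aeval α P₀ = 0 → aeval β P₁ = 0 → α ^ m ≠ β ^ m
  right : ∀ m : ℕ, 1 ≤ m → ∀ α β : ℂ, aeval α P₁ = 0 → aeval β P₁ = 0 → α ^ m = β ^ m → α = β

/-- The complex number `α` is a simple root of `P`, and its absolute value `v(α)` is different from
the absolute values of the other complex roots of `P`. -/
structure IsolatedRoot (P : ℚ[X]) (v : AbsoluteValue ℂ ℝ) (α : ℂ) : Prop where
  simple : (P.map (algebraMap ℚ ℂ)).rootMultiplicity α = 1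
  ne : ∀ β : ℂ, aeval β P = 0 → β ≠ α → v β ≠ v α

section Alg

variable {K : Type*} [Field K] {V : Type*} [AddCommGroup V] [Module K V]

/-- The preimage of the subspace `U` under the isomorphism `s`. -/
def under {A B : Type*} [Ring A] [Ring B] [Algebra K B] (s : A ≃+* B) (U : Submodule K B) :
    Set A :=
  {a | s a ∈ U}

/-- The subspace of `U` on which the operator `P(F)` is zero. -/
noncomputable def kernelIn [CharZero K] (U : Submodule K V) (F : Module.End K V) (P : ℚ[X]) :
    Submodule K V :=
  U ⊓ LinearMap.ker (aeval F (P.map (algebraMap ℚ K)))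

/-- The operator `F` maps `U` to itself, with the characteristic polynomial `P`. -/
def HasCharpolyOn [CharZero K] [Module.Finite K V] (U : Submodule K V) (F : Module.End K V)
    (P : ℚ[X]) : Prop :=
  ∃ h : ∀ a ∈ U, F a ∈ U, (F.restrict h).charpoly = P.map (algebraMap ℚ K)

/-- Every operator in `S` commutes with some power `F ^ m`, `m ≥ 1`. -/
def CommuteWithPowers (S : Set (Module.End K V)) (F : Module.End K V) : Prop :=
  ∀ T ∈ S, ∃ m : ℕ, 1 ≤ m ∧ Commute T (F ^ m)

/-- Some operator in `S` is not zero on `U`. -/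
def HitBy (U : Set V) (S : Set (Module.End K V)) : Prop :=
  ∃ T ∈ S, ∃ a ∈ U, T a ≠ 0

/-- Some combination of operators in `S`, with coefficients in `K`, is injective on `U`. -/
def InjectedBy (U : Set V) (S : Set (Module.End K V)) : Prop :=
  ∃ T ∈ Submodule.span K S, ∀ a ∈ U, T a = 0 → a = 0

/-- The operator `E` is the identity on `U`. -/
def IdentityOn (U : Set V) (E : Module.End K V) : Prop := ∀ a ∈ U, E a = a

/-- The dimension of the space spanned by `U` is `r`. -/
def HasDim (K : Type*) [Field K] {V : Type*} [AddCommGroup V] [Module K V] (U : Set V) (r : ℕ) :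
    Prop :=
  Module.finrank K (Submodule.span K U) = r

/-- The operator `E` is the identity on `U`, of dimension `r`, and all operators in `S` are zero
on `U'`, of dimension `r'`. -/
structure Splits (U U' : Set V) (E : Module.End K V) (S : Set (Module.End K V)) (r r' : ℕ) :
    Prop where
  id : IdentityOn U E
  zero : ¬ HitBy U' S
  dim_left : HasDim K U r
  dim_right : HasDim K U' r'

end Alg

variable {k : Type u} [Field k] {𝒱 : VarClass k} {ops : CycleOps 𝒱}
  {k₀ : Type u₁} [Field k₀] {𝒱₀ : VarClass k₀} {ops₀ : CycleOps 𝒱₀}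

/-- The kernel of `P(f^*)` on `H^i(X)`. -/
noncomputable def polyPart (W : WeilCohomology.{u, v} ops) (X : 𝒱.Obj) (f : X ⟶ X) (i : ℕ)
    (P : ℚ[X]) : Submodule W.K (W.H X) :=
  kernelIn (W.gr X i) (W.map f).toLinearMap P

end Pool.Agent.K4H38.ZO
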