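import Pool.Agent.K4H38.ZO.Defs
import Pool.Agent.K4H38.ZO.Alg

/-!
# Linear algebra for operators commuting with powers of another one
-/

open Polynomial

namespace Pool.Agent.K4H38.ZO

open Pool.Agent.H914

/-- Evaluation at a power. -/
lemma ev_comp_pow {K : Type*} [Field K] [CharZero K] {V : Type*} [AddCommGroup V] [Module K V]
    (φ : Module.End K V) (R : ℚ[X]) (m : ℕ) : ev φ (R.comp (X ^ m)) = ev (φ ^ m) R := by
  rw [ev_apply, ev_apply, Polynomial.map_comp, Polynomial.map_pow, Polynomial.map_X,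
    Polynomial.aeval_comp, map_pow, aeval_X]

lemma ev_commute {K : Type*} [Field K] [CharZero K] {V : Type*} [AddCommGroup V] [Module K V]
    {φ T : Module.End K V} (h : Commute T φ) (P : ℚ[X]) : Commute T (ev φ P) := by
  rw [ev_apply]
  induction P.map (algebraMap ℚ K) using Polynomial.induction_on' with
  | add a b ha hb => rw [map_add]; exact ha.add_right hb
  | monomial r c =>
    rw [aeval_monomial, Algebra.algebraMap_eq_smul_one, smul_mul_assoc, one_mul]
    exact (h.pow_right r).smul_right c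

lemma Unrelated.coprime {P₀ P₁ : ℚ[X]} (h : Unrelated P₀ P₁) : IsCoprime P₀ P₁ := by
  rw [Polynomial.isCoprime_iff_aeval_ne_zero_of_isAlgClosed ℚ ℂ]
  intro a
  by_contra h0
  push Not at h0
  exact h.left 1 le_rfl a a h0.1 h0.2 rfl

lemma Unrelated.ne_zero' {P₀ P₁ : ℚ[X]} (h : Unrelated P₀ P₁) : P₁ ≠ 0 := h.squarefree.ne_zero

/-- Polynomials for the powers with disjoint roots. -/
lemma Unrelated.exists_pow {P₀ P₁ : ℚ[X]} (h : Unrelated P₀ P₁) {m : ℕ} (hm : 1 ≤ m) :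
    ∃ R₀ R₁ : ℚ[X], P₀ ∣ R₀.comp (X ^ m) ∧ P₁ ∣ R₁.comp (X ^ m) ∧ IsCoprime R₀ R₁ := by
  obtain ⟨R₀, -, hd₀, hr₀⟩ := exists_pow_poly P₀ h.ne_zero m
  obtain ⟨R₁, -, hd₁, hr₁⟩ := exists_pow_poly P₁ h.ne_zero' m
  refine ⟨R₀, R₁, hd₀, hd₁, ?_⟩
  rw [Polynomial.isCoprime_iff_aeval_ne_zero_of_isAlgClosed ℚ ℂ]
  intro z
  by_contra h0
  push Not at h0
  obtain ⟨a, ha, ha'⟩ := hr₀ z h0.1
  obtain ⟨b, hb, hb'⟩ := hr₁ z h0.2
  exact h.left m hm a b ha hb (ha'.trans hb'.symm)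

section

variable {K : Type*} [Field K] [CharZero K] {V : Type*} [AddCommGroup V] [Module K V]
  {φ T : Module.End K V} {U : Submodule K V} {P₀ P₁ : ℚ[X]}

/-- An operator commuting with a power of `φ` preserves the kernel of `P₁(φ)`. -/
lemma preserves_right (h : Unrelated P₀ P₁) {m : ℕ} (hm : 1 ≤ m) (hc : Commute T (φ ^ m))
    (hT : ∀ a ∈ U, T a ∈ U) (hk : ∀ a ∈ U, ev φ (P₀ * P₁) a = 0) {a : V} (ha : a ∈ U)
    (ha1 : ev φ P₁ a = 0) : ev φ P₁ (T a) = 0 := by
  obtain ⟨R₀, R₁, ⟨S₀, hS₀⟩, ⟨S₁, hS₁⟩, A, B, hAB⟩ := h.exists_pow hm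
  set y := ev φ P₁ (T a) with hy
  have h0 : ev φ P₀ y = 0 := by
    rw [hy, ← Module.End.mul_apply, ← map_mul]
    exact hk _ (hT a ha)
  have h1 : ev (φ ^ m) R₀ y = 0 := by
    rw [← ev_comp_pow, hS₀, mul_comm, map_mul, Module.End.mul_apply, h0, map_zero]
  have h2 : ev (φ ^ m) R₁ y = 0 := by
    have e1 : ev (φ ^ m) R₁ a = 0 := by
      rw [← ev_comp_pow, hS₁, mul_comm, map_mul, Module.End.mul_apply, ha1, map_zero]
    have e2 : ev (φ ^ m) R₁ (T a) = T (ev (φ ^ m) R₁ a) := by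
      rw [← Module.End.mul_apply, ← Module.End.mul_apply, (ev_commute hc R₁).eq]
    rw [hy, ← ev_comp_pow, ← Module.End.mul_apply, ← map_mul, mul_comm, map_mul,
      Module.End.mul_apply, ev_comp_pow, e2, e1, map_zero, map_zero]
  have h3 : ev (φ ^ m) (A * R₀ + B * R₁) y = 0 := by
    rw [map_add, map_mul, map_mul, LinearMap.add_apply, Module.End.mul_apply,
      Module.End.mul_apply, h1, h2, map_zero, map_zero, add_zero]
  rwa [hAB, map_one, Module.End.one_apply] at h3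

/-- An operator commuting with a power of `φ` preserves the kernel of `P₀(φ)`. -/
lemma preserves_left (h : Unrelated P₀ P₁) {m : ℕ} (hm : 1 ≤ m) (hc : Commute T (φ ^ m))
    (hT : ∀ a ∈ U, T a ∈ U) (hk : ∀ a ∈ U, ev φ (P₀ * P₁) a = 0) {a : V} (ha : a ∈ U)
    (ha1 : ev φ P₀ a = 0) : ev φ P₀ (T a) = 0 := by
  obtain ⟨R₀, R₁, ⟨S₀, hS₀⟩, ⟨S₁, hS₁⟩, A, B, hAB⟩ := h.exists_pow hm
  set y := ev φ P₀ (T a) with hy
  have h0 : ev φ P₁ y = 0 := by
    rw [hy, ← Module.End.mul_apply, ← map_mul, mul_comm P₁]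
    exact hk _ (hT a ha)
  have h1 : ev (φ ^ m) R₁ y = 0 := by
    rw [← ev_comp_pow, hS₁, mul_comm, map_mul, Module.End.mul_apply, h0, map_zero]
  have h2 : ev (φ ^ m) R₀ y = 0 := by
    have e1 : ev (φ ^ m) R₀ a = 0 := by
      rw [← ev_comp_pow, hS₀, mul_comm, map_mul, Module.End.mul_apply, ha1, map_zero]
    have e2 : ev (φ ^ m) R₀ (T a) = T (ev (φ ^ m) R₀ a) := by
      rw [← Module.End.mul_apply, ← Module.End.mul_apply, (ev_commute hc R₀).eq]
    rw [hy, ← ev_comp_pow, ← Module.End.mul_apply, ← map_mul, mul_comm, map_mul,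
      Module.End.mul_apply, ev_comp_pow, e2, e1, map_zero, map_zero]
  have h3 : ev (φ ^ m) (A * R₀ + B * R₁) y = 0 := by
    rw [map_add, map_mul, map_mul, LinearMap.add_apply, Module.End.mul_apply,
      Module.End.mul_apply, h1, h2, map_zero, map_zero, add_zero]
  rwa [hAB, map_one, Module.End.one_apply] at h3

end

/-- An operator commuting with a power of `φ` commutes with `φ` on the kernel of `P₁(φ)`. -/
lemma commutes_right {K : Type*} [Field K] [CharZero K] {V : Type*} [AddCommGroup V] [Module K V]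
    {φ T : Module.End K V} {U : Submodule K V} {P₀ P₁ : ℚ[X]} (h : Unrelated P₀ P₁) {m : ℕ}
    (hm : 1 ≤ m) (hc : Commute T (φ ^ m)) (hT : ∀ a ∈ U, T a ∈ U)
    (hk : ∀ a ∈ U, ev φ (P₀ * P₁) a = 0) {a : V} (ha : a ∈ U)
    (ha1 : ev φ P₁ a = 0) : T (φ a) = φ (T a) := by
  obtain ⟨g, c, hg⟩ := exists_pow_inverse h.squarefree (h.right m hm)
  have key : ∀ b, ev φ P₁ b = 0 → φ b = ev (φ ^ m) g b := by
    intro b hb
    have h1 : ev φ (g.comp (X ^ m) - X) b = 0 := by
      rw [hg, mul_comm, map_mul, Module.End.mul_apply, hb, map_zero]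
    rw [map_sub, LinearMap.sub_apply, ev_X, ev_comp_pow, sub_eq_zero] at h1
    exact h1.symm
  rw [key a ha1, key (T a) (preserves_right h hm hc hT hk ha ha1), ← Module.End.mul_apply,
    ← Module.End.mul_apply, (ev_commute hc g).eq]

/-- A polynomial in `c` without constant term which is idempotent modulo the squarefree polynomial
`P` and has the same support as `c`. -/
lemma exists_idem {P : ℚ[X]} (hP : Squarefree P) (c : ℚ[X]) :
    ∃ s : ℚ[X], P ∣ (1 - s.comp c * c) * c := by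
  classical
  have hP0 : P ≠ 0 := hP.ne_zero
  set A := AdjoinRoot P with hA
  have hfin : Module.Finite ℚ A := (AdjoinRoot.powerBasis hP0).finite
  set x : A := AdjoinRoot.mk P c with hx
  set M : Module.End ℚ A := Algebra.lmul ℚ A x with hM
  have hMe : ∀ p : ℚ[X], aeval M p = Algebra.lmul ℚ A (aeval x p) := fun p =>
    Polynomial.aeval_algHom_apply _ _ _
  have hxe : ∀ p : ℚ[X], aeval x p = AdjoinRoot.mk P (p.comp c) := by
    intro p
    rw [← AdjoinRoot.aeval_eq (p.comp c), Polynomial.aeval_comp, AdjoinRoot.aeval_eq]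
  obtain ⟨w, k, -, -, hkw, g, hg⟩ := exists_fitting M
  refine ⟨g, ?_⟩
  have h1 : M ^ k * aeval M w = Algebra.lmul ℚ A (AdjoinRoot.mk P (c ^ k * w.comp c)) := by
    rw [hMe, hM, hxe, map_mul (AdjoinRoot.mk P), map_pow (AdjoinRoot.mk P), ← hx, map_mul, map_pow]
  rw [h1] at hkw
  have h2 : AdjoinRoot.mk P (c ^ k * w.comp c) = 0 := by
    have := congrArg (fun F : Module.End ℚ A => F 1) hkw
    simpa using this
  rw [AdjoinRoot.mk_eq_zero] at h2
  have h3 : P ∣ (c * w.comp c) ^ (k + 1) := by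
    rw [mul_pow, pow_succ c, pow_succ (w.comp c)]
    refine h2.trans ⟨c * w.comp c ^ k, by ring⟩
  have h4 : P ∣ c * w.comp c := (hP.dvd_pow_iff_dvd (by omega)).1 h3
  have h5 : w = 1 - X * g := by rw [← hg]; ring
  have h6 : w.comp c = 1 - c * g.comp c := by
    rw [h5]
    simp
  rw [h6] at h4
  convert h4 using 1
  ring

/-- Field automorphisms moving a root of an irreducible polynomial to a given one. -/
lemma exists_conj {α β : ℂ} (hβ : aeval β (minpoly ℚ α) = 0) (hα : IsIntegral ℚ α) :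
    ∃ σ : algebraicClosure ℚ ℂ →ₐ[ℚ] ℂ, ∀ (b : algebraicClosure ℚ ℂ), (b : ℂ) = β → σ b = α := by
  set L := algebraicClosure ℚ ℂ with hL
  have hcl : IsAlgClosure ℚ L := algebraicClosure.isAlgClosure ℚ ℂ
  have hnorm : Normal ℚ L := IsAlgClosure.normal ℚ L
  have hβi : IsIntegral ℚ β := ⟨minpoly ℚ α, minpoly.monic hα, hβ⟩
  set a : L := ⟨α, mem_algebraicClosure_iff.2 hα.isAlgebraic⟩ with ha
  set b : L := ⟨β, mem_algebraicClosure_iff.2 hβi.isAlgebraic⟩ with hb
  have hmin : minpoly ℚ a = minpoly ℚ α := minpoly.algebraMap_eq (algebraMap L ℂ).injective a |>.symm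
  have hroot : aeval b (minpoly ℚ a) = 0 := by
    apply (algebraMap L ℂ).injective
    rw [map_zero, hmin, ← Polynomial.aeval_algebraMap_apply]
    exact hβ
  have haa : IsAlgebraic ℚ a := Algebra.IsAlgebraic.isAlgebraic a
  obtain ⟨τ, hτ⟩ := minpoly.exists_algEquiv_of_root haa hroot
  refine ⟨(IntermediateField.val L).comp τ.toAlgHom, fun b' hb' => ?_⟩
  have : b' = b := Subtype.ext hb'
  rw [this]
  change ((τ b : L) : ℂ) = α
  rw [hτ]

/-- The minimal polynomial of an isolated root. -/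
theorem IsolatedRoot.unrelated {P : ℚ[X]} {v : AbsoluteValue ℂ ℝ} {α : ℂ} (hP : P ≠ 0)
    (h : IsolatedRoot P v α) : ∃ P₀ : ℚ[X], P₀ * minpoly ℚ α = P ∧ Unrelated P₀ (minpoly ℚ α) := by
  classical
  have hPm : P.map (algebraMap ℚ ℂ) ≠ 0 := by rwa [Ne, Polynomial.map_eq_zero]
  have hroot : aeval α P = 0 := by
    have h1 : 0 < (P.map (algebraMap ℚ ℂ)).rootMultiplicity α := by rw [h.simple]; exact one_pos
    have h2 := (rootMultiplicity_pos hPm).1 h1
    rwa [IsRoot, eval_map_algebraMap] at h2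
  have hα : IsIntegral ℚ α := isAlgebraic_iff_isIntegral.1 ⟨P, hP, hroot⟩
  set π := minpoly ℚ α with hπ
  obtain ⟨P₀, hP₀⟩ := minpoly.dvd ℚ α hroot
  have hP₀' : P₀ * π = P := by rw [mul_comm]; exact hP₀.symm
  have hP₀0 : P₀ ≠ 0 := by rintro rfl; rw [zero_mul] at hP₀'; exact hP hP₀'.symm
  have hirr : Irreducible π := minpoly.irreducible hα
  have hP₀α : aeval α P₀ ≠ 0 := by
    intro h0
    have h1 := h.simple
    rw [← hP₀', Polynomial.map_mul, rootMultiplicity_mul (by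
      rw [← Polynomial.map_mul, hP₀']; exact hPm)] at h1
    have h2 : 0 < (P₀.map (algebraMap ℚ ℂ)).rootMultiplicity α := by
      rw [rootMultiplicity_pos (by rwa [Ne, Polynomial.map_eq_zero]), IsRoot, eval_map_algebraMap]
      exact h0
    have h3 : 0 < (π.map (algebraMap ℚ ℂ)).rootMultiplicity α := by
      rw [rootMultiplicity_pos (by rw [Ne, Polynomial.map_eq_zero]; exact hirr.ne_zero), IsRoot,
        eval_map_algebraMap]
      exact minpoly.aeval ℚ α
    omega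
  -- the conjugates
  have key : ∀ m : ℕ, 1 ≤ m → ∀ γ β : ℂ, aeval γ P = 0 → aeval β π = 0 → γ ^ m = β ^ m →
      γ = β := by
    intro m hm γ β hγ hβ hγβ
    obtain ⟨σ, hσ⟩ := exists_conj hβ hα
    have hγa : γ ∈ algebraicClosure ℚ ℂ := mem_algebraicClosure_iff.2 ⟨P, hP, hγ⟩
    have hβa : β ∈ algebraicClosure ℚ ℂ := mem_algebraicClosure_iff.2 ⟨π, hirr.ne_zero, hβ⟩
    set g : algebraicClosure ℚ ℂ := ⟨γ, hγa⟩ with hg
    set b : algebraicClosure ℚ ℂ := ⟨β, hβa⟩ with hb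
    have h1 : g ^ m = b ^ m := Subtype.ext hγβ
    have h2 : σ b = α := hσ b rfl
    have h3 : (σ g) ^ m = α ^ m := by rw [← map_pow, h1, map_pow, h2]
    have h4 : aeval (σ g) P = 0 := by
      rw [Polynomial.aeval_algHom_apply]
      have h5 : aeval g P = 0 := by
        apply (algebraMap (algebraicClosure ℚ ℂ) ℂ).injective
        rw [map_zero, ← Polynomial.aeval_algebraMap_apply]
        exact hγ
      rw [h5, map_zero]
    have h5 : v (σ g) = v α := by
      have h6 : v (σ g) ^ m = v α ^ m := by rw [← map_pow, h3, map_pow]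
      exact (pow_left_inj₀ (v.nonneg _) (v.nonneg _) (by omega)).1 h6
    have h7 : σ g = α := by
      by_contra hne
      exact h.ne _ h4 hne h5
    have h8 : σ g = σ b := by rw [h7, h2]
    exact congrArg Subtype.val (σ.toRingHom.injective h8)
  refine ⟨P₀, hP₀', hP₀0, hirr.squarefree, fun m hm γ β hγ hβ hγβ => ?_,
    fun m hm γ β hγ hβ hγβ => key m hm γ β (by rw [← hP₀', map_mul, hγ, mul_zero]) hβ hγβ⟩
  have h1 : γ = β := key m hm γ β (by rw [← hP₀', map_mul, hγ, zero_mul]) hβ hγβ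
  obtain ⟨σ, hσ⟩ := exists_conj hβ hα
  have hγa : γ ∈ algebraicClosure ℚ ℂ := mem_algebraicClosure_iff.2 ⟨P₀, hP₀0, hγ⟩
  apply hP₀α
  have h2 : σ ⟨γ, hγa⟩ = α := hσ _ h1
  rw [← h2, Polynomial.aeval_algHom_apply]
  have h5 : aeval (⟨γ, hγa⟩ : algebraicClosure ℚ ℂ) P₀ = 0 := by
    apply (algebraMap (algebraicClosure ℚ ℂ) ℂ).injective
    rw [map_zero, ← Polynomial.aeval_algebraMap_apply]
    exact hγ
  rw [h5, map_zero]

end Pool.Agent.K4H38.ZO
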