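import Pool.Agent.K4H38.ZO.Core
import Pool.Agent.R907.Part

/-!
# The zero-one law for simple Frobenius factors
-/

open CategoryTheory AlgebraicGeometry Finset Polynomial

set_option linter.unusedSectionVars false

universe u₁ v₁ u v

namespace Pool.Agent.K4H38.ZO

open Pool.Agent.H914 Pool.Agent.H447 Pool.Agent.W537 Pool.Agent.Y106.One Pool.Agent.R907
  VarClass Obj WeilCohomology

variable {k : Type u} [Field k] {𝒱 : VarClass k} {ops : CycleOps 𝒱} {X : 𝒱.Obj}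
  {k₀ : Type u₁} [Field k₀] {𝒱₀ : VarClass k₀} {ops₀ : CycleOps 𝒱₀} {R : Reduction X 𝒱₀}
  {i : ℕ} {P₀ P₁ : ℚ[X]}

lemma ev_ev {K : Type*} [Field K] [CharZero K] {V : Type*} [AddCommGroup V] [Module K V]
    (φ : Module.End K V) (c s : ℚ[X]) : ev (ev φ c) s = ev φ (s.comp c) := by
  rw [ev_apply, ev_apply, ev_apply, Polynomial.map_comp, Polynomial.aeval_comp]

lemma ev_of_dvd {K : Type*} [Field K] [CharZero K] {V : Type*} [AddCommGroup V] [Module K V]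
    {φ : Module.End K V} {g c : ℚ[X]} (h : g ∣ c) {a : V} (ha : ev φ g a = 0) : ev φ c a = 0 := by
  obtain ⟨d, rfl⟩ := h
  rw [mul_comm, map_mul, Module.End.mul_apply, ha, map_zero]

section Comparison

variable {W : WeilCohomology.{u, v} ops} {W₀ : WeilCohomology.{u₁, v₁} ops₀} {X₀ : 𝒱₀.Obj}
  {sp : (X.prod X).Cycles → (X₀.prod X₀).Cycles} (C : Comparison W X W₀ X₀ sp)

lemma s_mem_iff {a : W.H X} : C.s a ∈ W₀.gr X₀ i ↔ a ∈ W.gr X i := by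
  refine ⟨fun h => ?_, C.isComparison.mem i a⟩
  have h1 : C.s (proj (W.isInternal X) i a) = C.s a := by rw [C.s_proj, proj_same _ h]
  rw [← C.s.injective h1]
  exact proj_mem _ i a

/-- Rational polynomials and semilinear comparison isomorphisms. -/
lemma ev_semi {T : Module.End W.K (W.H X)} {T₀ : Module.End W₀.K (W₀.H X₀)} {S : Set (W.H X)}
    (hS : ∀ a ∈ S, T a ∈ S) (h : ∀ a ∈ S, C.s (T a) = T₀ (C.s a)) (s : ℚ[X]) :
    ∀ a ∈ S, C.s (ev T s a) = ev T₀ s (C.s a) := by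
  have hpow : ∀ r : ℕ, ∀ a ∈ S, (T ^ r) a ∈ S ∧ C.s ((T ^ r) a) = (T₀ ^ r) (C.s a) := by
    intro r
    induction r with
    | zero => intro a ha; exact ⟨ha, rfl⟩
    | succ r ih =>
      intro a ha
      obtain ⟨h1, h2⟩ := ih a ha
      rw [pow_succ', pow_succ', Module.End.mul_apply, Module.End.mul_apply]
      exact ⟨hS _ h1, by rw [h _ h1, h2]⟩
  intro a ha
  induction s using Polynomial.induction_on' with
  | add p q hp hq =>
    rw [map_add, map_add, LinearMap.add_apply, LinearMap.add_apply, map_add, hp, hq]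
  | monomial r c =>
    rw [← C_mul_X_pow_eq_monomial, map_mul, map_mul, map_pow, map_pow, ev_C, ev_C, ev_X, ev_X,
      smul_mul_assoc, smul_mul_assoc, one_mul, one_mul, LinearMap.smul_apply,
      LinearMap.smul_apply, C.s_smul, (hpow r a ha).2, map_ratCast]

end Comparison

namespace FrobTheory

variable (Θ : FrobTheory.{u₁, v₁, u, v} ops ops₀ R i (P₀ * P₁))

omit Θ in
lemma mem_part {P : ℚ[X]} {Θ : FrobTheory.{u₁, v₁, u, v} ops ops₀ R i P} {Q : ℚ[X]}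
    {a : Θ.W.H X} :
    a ∈ Θ.part Q ↔ a ∈ Θ.W.gr X i ∧ Θ.C.s a ∈ polyPart Θ.W₀ R.X₀ R.f i Q :=
  ⟨fun h => ⟨(s_mem_iff Θ.C).1 h.1, h⟩, fun h => h.2⟩

/-- The kernel of `Q(f^*)` as a subspace. -/
noncomputable def sub {P : ℚ[X]} (Θ : FrobTheory.{u₁, v₁, u, v} ops ops₀ R i P) (Q : ℚ[X]) :
    Submodule Θ.W.K (Θ.W.H X) where
  carrier := Θ.part Q
  add_mem' {a b} ha hb := by
    refine mem_part.2 ⟨Submodule.add_mem _ (mem_part.1 ha).1 (mem_part.1 hb).1, ?_⟩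
    rw [map_add]; exact Submodule.add_mem _ (mem_part.1 ha).2 (mem_part.1 hb).2
  zero_mem' := by
    refine mem_part.2 ⟨Submodule.zero_mem _, ?_⟩
    rw [map_zero]; exact Submodule.zero_mem _
  smul_mem' c a ha := by
    refine mem_part.2 ⟨Submodule.smul_mem _ _ (mem_part.1 ha).1, ?_⟩
    rw [Θ.C.s_smul]; exact Submodule.smul_mem _ _ (mem_part.1 ha).2

lemma part_mono {P Q : ℚ[X]} (h : P ∣ Q) {a : Θ.W.H X} (ha : a ∈ Θ.part P) : a ∈ Θ.part Q :=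
  mem_part.2 ⟨(mem_part.1 ha).1, (mem_part.1 ha).2.1,
    ev_of_dvd h (mem_polyPart.1 (mem_part.1 ha).2).2⟩

/-- Transport of correspondences of degree zero to the reduction. -/
lemma exists_red {T : Fam.{u, v} ops X} (hT : Realized ops X 0 T) :
    ∃ T₀ : Fam.{u₁, v₁} ops₀ R.X₀, Realized ops₀ R.X₀ 0 T₀ ∧
      ∀ (Θ : FrobTheory.{u₁, v₁, u, v} ops ops₀ R i (P₀ * P₁)) (a : Θ.W.H X),
        Θ.C.s (T Θ.W a) = T₀ Θ.W₀ (Θ.C.s a) := by
  rcases hT with ⟨p, hp, z, hz, hTz⟩ | ⟨hd, _⟩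
  · refine ⟨fun W₀ => W₀.corr (W₀.cl _ (R.sp z)),
      Or.inl ⟨p, by rw [R.dim_eq]; exact hp, R.sp z, R.mem p z hz, fun _ => rfl⟩, fun Θ a => ?_⟩
    rw [hTz, Θ.C.s_corr, Θ.C.isSquare.cl]
  · omega

lemma stable_right (hP : Unrelated P₀ P₁) {T : Fam.{u, v} ops X} (hT : Realized ops X 0 T)
    {a : Θ.W.H X} (ha : a ∈ Θ.part P₁) : T Θ.W a ∈ Θ.part P₁ := by
  obtain ⟨T₀, hT₀, h⟩ := exists_red (ops₀ := ops₀) (R := R) (i := i) (P₀ := P₀) (P₁ := P₁) hT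
  refine mem_part.2 ⟨real_mem hT Θ.W (mem_part.1 ha).1, ?_⟩
  rw [h]
  exact Θ.frob.stable_right hP hT₀ (mem_part.1 ha).2

lemma stable_left (hP : Unrelated P₀ P₁) {T : Fam.{u, v} ops X} (hT : Realized ops X 0 T)
    {a : Θ.W.H X} (ha : a ∈ Θ.part P₀) : T Θ.W a ∈ Θ.part P₀ := by
  obtain ⟨T₀, hT₀, h⟩ := exists_red (ops₀ := ops₀) (R := R) (i := i) (P₀ := P₀) (P₁ := P₁) hT
  refine mem_part.2 ⟨real_mem hT Θ.W (mem_part.1 ha).1, ?_⟩
  rw [h]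
  exact Θ.frob.stable_left hP hT₀ (mem_part.1 ha).2

/-- The decomposition of `H^i(X)`. -/
lemma exists_split (hP : Unrelated P₀ P₁) {a : Θ.W.H X} (ha : a ∈ Θ.W.gr X i) :
    ∃ a₀ ∈ Θ.part P₀, ∃ a₁ ∈ Θ.part P₁, a = a₀ + a₁ := by
  obtain ⟨A, B, hAB⟩ := hP.coprime
  have hx : Θ.C.s a ∈ Θ.W₀.gr R.X₀ i := (s_mem_iff Θ.C).2 ha
  have hk := Θ.frob.kills hx
  set x := Θ.C.s a with hxdef
  have h0 : ev (fr Θ.W₀ R.f) (B * P₁) x ∈ polyPart Θ.W₀ R.X₀ R.f i P₀ := by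
    refine ⟨ev_mem _ hx, ?_⟩
    change ev (fr Θ.W₀ R.f) P₀ (ev (fr Θ.W₀ R.f) (B * P₁) x) = 0
    rw [← Module.End.mul_apply, ← map_mul, show P₀ * (B * P₁) = B * (P₀ * P₁) by ring, map_mul,
      Module.End.mul_apply, hk, map_zero]
  have h1 : ev (fr Θ.W₀ R.f) (A * P₀) x ∈ polyPart Θ.W₀ R.X₀ R.f i P₁ := by
    refine ⟨ev_mem _ hx, ?_⟩
    change ev (fr Θ.W₀ R.f) P₁ (ev (fr Θ.W₀ R.f) (A * P₀) x) = 0
    rw [← Module.End.mul_apply, ← map_mul, show P₁ * (A * P₀) = A * (P₀ * P₁) by ring, map_mul,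
      Module.End.mul_apply, hk, map_zero]
  refine ⟨Θ.C.s.symm (ev (fr Θ.W₀ R.f) (B * P₁) x), mem_part.2 ⟨?_, ?_⟩,
    Θ.C.s.symm (ev (fr Θ.W₀ R.f) (A * P₀) x), mem_part.2 ⟨?_, ?_⟩, ?_⟩
  · rw [← s_mem_iff Θ.C, RingEquiv.apply_symm_apply]; exact h0.1
  · rw [RingEquiv.apply_symm_apply]; exact h0
  · rw [← s_mem_iff Θ.C, RingEquiv.apply_symm_apply]; exact h1.1
  · rw [RingEquiv.apply_symm_apply]; exact h1
  · rw [← map_add, ← LinearMap.add_apply, ← map_add, add_comm (B * P₁), hAB, map_one,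
      Module.End.one_apply, hxdef, RingEquiv.symm_apply_apply]

end FrobTheory

/-- The family `T` acts on the `P₁`-parts as the rational polynomial `c` in Frobenius. -/
def Acts (ops₀ : CycleOps 𝒱₀) (R : Reduction X 𝒱₀) (i : ℕ) (P₀ P₁ : ℚ[X])
    (T : Fam.{u, v} ops X) (c : ℚ[X]) : Prop :=
  ∀ Θ : FrobTheory.{u₁, v₁, u, v} ops ops₀ R i (P₀ * P₁), ∀ a ∈ Θ.part P₁,
    Θ.C.s (T Θ.W a) = ev (fr Θ.W₀ R.f) c (Θ.C.s a)

/-- Correspondences act as polynomials. -/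
theorem exists_acts (hP : Unrelated P₀ P₁) {T : Fam.{u, v} ops X} (hT : Realized ops X 0 T) :
    ∃ c : ℚ[X], Acts.{u₁, v₁} ops₀ R i P₀ P₁ T c := by
  by_cases hex : Nonempty (FrobTheory.{u₁, v₁, u, v} ops ops₀ R i (P₀ * P₁))
  · obtain ⟨Θ₁⟩ := hex
    obtain ⟨T₀, hT₀, h⟩ := FrobTheory.exists_red (ops₀ := ops₀) (R := R) (i := i) (P₀ := P₀)
      (P₁ := P₁) hT
    obtain ⟨c, hc⟩ := exists_poly R.one_lt Θ₁.frob hP hT₀
    refine ⟨c, fun Θ a ha => ?_⟩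
    rw [h]
    exact hc Θ.W₀ Θ.frob _ (FrobTheory.mem_part.1 ha).2
  · exact ⟨0, fun Θ => absurd ⟨Θ⟩ hex⟩

section ActsAlg

variable {T T' : Fam.{u, v} ops X} {c c' : ℚ[X]}

lemma Acts.one : Acts.{u₁, v₁} (ops := ops) ops₀ R i P₀ P₁ (fun _ => 1) 1 := by
  intro Θ a _
  rw [map_one]
  rfl

lemma Acts.add (h : Acts.{u₁, v₁} ops₀ R i P₀ P₁ T c) (h' : Acts.{u₁, v₁} ops₀ R i P₀ P₁ T' c') :
    Acts.{u₁, v₁} ops₀ R i P₀ P₁ (fun W => T W + T' W) (c + c') := by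
  intro Θ a ha
  beta_reduce
  rw [LinearMap.add_apply, map_add, h Θ a ha, h' Θ a ha, map_add, LinearMap.add_apply]

lemma Acts.sub (h : Acts.{u₁, v₁} ops₀ R i P₀ P₁ T c) (h' : Acts.{u₁, v₁} ops₀ R i P₀ P₁ T' c') :
    Acts.{u₁, v₁} ops₀ R i P₀ P₁ (fun W => T W - T' W) (c - c') := by
  intro Θ a ha
  beta_reduce
  rw [LinearMap.sub_apply, map_sub, h Θ a ha, h' Θ a ha, map_sub, LinearMap.sub_apply]

lemma Acts.mul (hP : Unrelated P₀ P₁) (hT' : Realized ops X 0 T')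
    (h : Acts.{u₁, v₁} ops₀ R i P₀ P₁ T c) (h' : Acts.{u₁, v₁} ops₀ R i P₀ P₁ T' c') :
    Acts.{u₁, v₁} ops₀ R i P₀ P₁ (fun W => T W * T' W) (c * c') := by
  intro Θ a ha
  beta_reduce
  rw [Module.End.mul_apply, h Θ _ (Θ.stable_right hP hT' ha), h' Θ a ha, map_mul,
    Module.End.mul_apply]

lemma Acts.ev (hP : Unrelated P₀ P₁) (hT : Realized ops X 0 T)
    (h : Acts.{u₁, v₁} ops₀ R i P₀ P₁ T c) (s : ℚ[X]) :
    Acts.{u₁, v₁} ops₀ R i P₀ P₁ (fun W => H914.ev (T W) s) (s.comp c) := by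
  intro Θ a ha
  beta_reduce
  rw [ev_semi Θ.C (S := Θ.part P₁) (fun a ha => Θ.stable_right hP hT ha) (h Θ) s a ha, ev_ev]

end ActsAlg

/-- Splitting a squarefree polynomial according to another one. -/
lemma exists_split_poly {P : ℚ[X]} (hP : Squarefree P) (c : ℚ[X]) :
    ∃ g h : ℚ[X], g * h = P ∧ IsCoprime g c ∧ h ∣ c := by
  classical
  obtain ⟨g, hg⟩ := EuclideanDomain.gcd_dvd_left P c
  refine ⟨g, EuclideanDomain.gcd P c, by rw [mul_comm]; exact hg.symm, ?_,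
    EuclideanDomain.gcd_dvd_right P c⟩
  rw [← EuclideanDomain.gcd_isUnit_iff]
  set d := EuclideanDomain.gcd g c with hd
  have h1 : d ∣ g := EuclideanDomain.gcd_dvd_left g c
  have h2 : d ∣ c := EuclideanDomain.gcd_dvd_right g c
  have h3 : d ∣ P := h1.trans ⟨EuclideanDomain.gcd P c, by rw [mul_comm]; exact hg⟩
  have h4 : d ∣ EuclideanDomain.gcd P c := EuclideanDomain.dvd_gcd h3 h2
  apply hP d
  rw [hg]
  exact mul_dvd_mul h4 h1

/-- **The structure of a left ideal of correspondences on a part with simple spectrum.** -/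
theorem exists_factor (hP : Unrelated P₀ P₁) {J : Set (Fam.{u, v} ops X)} (hJ : IsLeftIdeal J) :
    ∃ E ∈ J, ∃ g h e : ℚ[X], g * h = P₁ ∧ Acts.{u₁, v₁} ops₀ R i P₀ P₁ E e ∧ g ∣ 1 - e ∧
      ∀ T ∈ J, ∀ c, Acts.{u₁, v₁} ops₀ R i P₀ P₁ T c → h ∣ c := by
  classical
  have hex : ∃ d : ℕ, ∃ T ∈ J, ∃ c g h : ℚ[X], Acts.{u₁, v₁} ops₀ R i P₀ P₁ T c ∧ g * h = P₁ ∧
      IsCoprime g c ∧ h ∣ c ∧ h.natDegree = d := by
    obtain ⟨c, hc⟩ := exists_acts (ops₀ := ops₀) (R := R) (i := i) hP (hJ.real _ hJ.zero)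
    obtain ⟨g, h, h1, h2, h3⟩ := exists_split_poly hP.squarefree c
    exact ⟨_, _, hJ.zero, c, g, h, hc, h1, h2, h3, rfl⟩
  obtain ⟨T, hTJ, c, g, h, hTc, hgh, hgc, hhc, hdeg⟩ := Nat.find_spec hex
  have hmin := fun d hd => Nat.find_min hex (m := d) hd
  obtain ⟨s, hs⟩ := exists_idem hP.squarefree c
  set e := s.comp c * c with he
  set E : Fam.{u, v} ops X := fun W => H914.ev (T W) s * T W with hE
  have hTr := hJ.real T hTJ
  have hEJ : E ∈ J := hJ.left (fun W => H914.ev (T W) s) (hTr.ev s) T hTJ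
  have hEe : Acts.{u₁, v₁} ops₀ R i P₀ P₁ E e := (hTc.ev hP hTr s).mul hP hTr hTc
  have hg1 : g ∣ 1 - e := by
    have h1 : g ∣ (1 - e) * c := (Dvd.intro h hgh).trans hs
    exact hgc.dvd_of_dvd_mul_right h1
  have hhe : h ∣ e := hhc.trans ⟨s.comp c, by rw [he]; ring⟩
  refine ⟨E, hEJ, g, h, e, hgh, hEe, hg1, fun T' hT' c' hc' => ?_⟩
  have hEr := hJ.real E hEJ
  have hT'r := hJ.real T' hT'
  have h1E : Realized.{u, v} ops X 0 (fun W => 1 - E W) := Realized.one.sub hEr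
  have hJ'' : (fun W => E W + (1 - E W) * T' W) ∈ J :=
    hJ.add E hEJ _ (hJ.left _ h1E T' hT')
  set c'' := e + (1 - e) * c' with hc''
  have hA'' : Acts.{u₁, v₁} ops₀ R i P₀ P₁ (fun W => E W + (1 - E W) * T' W) c'' :=
    hEe.add ((Acts.one.sub hEe).mul hP hT'r hc')
  obtain ⟨g', h', e1, e2, e3⟩ := exists_split_poly hP.squarefree c''
  have hle : h.natDegree ≤ h'.natDegree := by
    by_contra hlt
    push Not at hlt
    rw [hdeg] at hlt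
    exact hmin _ hlt ⟨_, hJ'', c'', g', h', hA'', e1, e2, e3, rfl⟩
  have hcop : IsCoprime g c'' := by
    obtain ⟨r, hr⟩ := hg1
    refine ⟨r * (1 - c'), 1, ?_⟩
    have : e = 1 - g * r := by rw [← hr]; ring
    rw [hc'', this]
    ring
  have hcop2 : IsCoprime h' g := (hcop.of_isCoprime_of_dvd_right e3).symm
  have hdvd : h' ∣ h := by
    have : h' ∣ g * h := by rw [hgh]; exact ⟨g', by rw [mul_comm]; exact e1.symm⟩
    exact hcop2.dvd_of_dvd_mul_left this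
  have hP10 : P₁ ≠ 0 := hP.ne_zero'
  have hh0 : h ≠ 0 := by rintro rfl; rw [mul_zero] at hgh; exact hP10 hgh.symm
  have hdvd' : h ∣ h' := by
    obtain ⟨w, hw⟩ := hdvd
    have hw0 : w ≠ 0 := by rintro rfl; rw [mul_zero] at hw; exact hh0 hw
    have hh'0 : h' ≠ 0 := by rintro rfl; rw [zero_mul] at hw; exact hh0 hw
    have h1 := Polynomial.natDegree_mul hh'0 hw0
    rw [← hw] at h1
    have h2 : w.natDegree = 0 := by omega
    obtain ⟨r, rfl⟩ := Polynomial.natDegree_eq_zero.1 h2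
    have hr0 : r ≠ 0 := by rintro rfl; exact hw0 C_0
    refine ⟨C r⁻¹, ?_⟩
    rw [hw, mul_assoc, ← C_mul, mul_inv_cancel₀ hr0, C_1, mul_one]
  have h3 : h ∣ (1 - e) * c' := by
    have h4 : h ∣ c'' := hdvd'.trans e3
    have h5 : (1 - e) * c' = c'' - e := by rw [hc'']; ring
    rw [h5]
    exact dvd_sub h4 hhe
  have h6 : IsCoprime h (1 - e) := by
    obtain ⟨r, hr⟩ := hhe
    exact ⟨r, 1, by rw [hr]; ring⟩
  exact h6.dvd_of_dvd_mul_left h3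

end Pool.Agent.K4H38.ZO
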